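import Pool.Agent.H68.BQ.Defs

/-!
# ROW Av1: the random subset

`mu δ Z A = (1 - δ)^|A| δ^|Z \ A|` is the probability of `A ⊆ Z`.
PROOF. `mu_sum`: `Finset.prod_add` for the constant functions `1 - δ`, `δ` on `Z`: `∏_{p ∈ Z} ((1 - δ) + δ) = ∑_{A ∈ Z.powerset} (∏_{p ∈ A} (1 - δ)) (∏_{p ∈ Z \ A} δ)`, `Finset.prod_const`.
`mu_sup`: the same with `f p = 1 - δ` and `g p = if p ∈ B then 0 else δ`: `∏_{p ∈ Z} (f p + g p) = (1 - δ)^|B|` (`B ⊆ Z`; split `Z = B ∪ (Z \ B)`), and `∏_{p ∈ Z \ A} g p = if B ⊆ A then δ^|Z \ A| else 0` (some `p ∈ B`, `p ∈ Z \ A` gives the factor `0`).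
`mu_drop`: for `p ∈ Z`: `∑_{A : p ∉ A} mu = 1 - ∑_{A : {p} ⊆ A} mu = 1 - (1 - δ) = δ`; exchange the sums (`∑_{q ∈ Z \ A} g q = ∑_{q ∈ Z} if q ∈ A then 0 else g q`).
`mu_markov`: otherwise `F A > 3 f` or `G A > 3 g`, so `F A/f + G A/g ≥ 3` for all `A ∈ Z.powerset` (all terms are `≥ 0`), and `3 = ∑ mu · 3 ≤ (∑ mu F)/f + (∑ mu G)/g ≤ 2`, contradiction.
-/

open Finset

namespace BVQ

theorem mu_nonneg {δ : ℝ} (h0 : 0 ≤ δ) (h1 : δ ≤ 1) (Z A : Finset ℕ) : 0 ≤ mu δ Z A := by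
  unfold mu
  exact mul_nonneg (pow_nonneg (by linarith) _) (pow_nonneg h0 _)

theorem mu_sum (δ : ℝ) (Z : Finset ℕ) : ∑ A ∈ Z.powerset, mu δ Z A = 1 := by
  have h := Finset.prod_add (fun _ : ℕ => (1 - δ)) (fun _ => δ) Z
  simp only [Finset.prod_const] at h
  unfold mu
  rw [← h, sub_add_cancel, one_pow]

theorem mu_sup (δ : ℝ) {Z B : Finset ℕ} (hB : B ⊆ Z) : ∑ A ∈ Z.powerset, (if B ⊆ A then mu δ Z A else 0) = (1 - δ) ^ B.card := by
  have h := Finset.prod_add (fun _ : ℕ => (1 - δ)) (fun p => if p ∈ B then 0 else δ) Z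
  have h1 : ∏ p ∈ Z, ((1 - δ) + if p ∈ B then 0 else δ) = (1 - δ) ^ B.card := by
    have h2 : ∀ p ∈ Z, ((1 - δ) + if p ∈ B then 0 else δ) = if p ∈ B then (1 - δ) else 1 := by
      intro p _
      by_cases hp : p ∈ B
      · simp [hp]
      · simp [hp]
    rw [Finset.prod_congr rfl h2, Finset.prod_ite, Finset.prod_const, Finset.prod_const_one,
      mul_one, Finset.filter_mem_eq_inter, Finset.inter_eq_right.2 hB]
  rw [← h1, h]
  refine Finset.sum_congr rfl fun A hA => ?_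
  rw [Finset.prod_const]
  by_cases hBA : B ⊆ A
  · rw [if_pos hBA]
    unfold mu
    congr 1
    rw [Finset.prod_congr rfl (g := fun _ => δ), Finset.prod_const]
    intro p hp
    rw [if_neg]
    intro hpB
    exact (Finset.mem_sdiff.1 hp).2 (hBA hpB)
  · rw [if_neg hBA]
    obtain ⟨p, hpB, hpA⟩ := Finset.not_subset.1 hBA
    have h0 : ∏ i ∈ Z \ A, (if i ∈ B then 0 else δ) = 0 :=
      Finset.prod_eq_zero (Finset.mem_sdiff.2 ⟨hB hpB, hpA⟩) (if_pos hpB)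
    rw [h0, mul_zero]

theorem mu_drop (δ : ℝ) (Z : Finset ℕ) (g : ℕ → ℝ) : ∑ A ∈ Z.powerset, mu δ Z A * ∑ p ∈ Z \ A, g p = δ * ∑ p ∈ Z, g p := by
  have h1 : ∀ A ∈ Z.powerset, mu δ Z A * ∑ p ∈ Z \ A, g p =
      ∑ p ∈ Z, (if p ∈ A then 0 else mu δ Z A) * g p := by
    intro A _
    rw [Finset.mul_sum, Finset.sdiff_eq_filter, Finset.sum_filter]
    refine Finset.sum_congr rfl fun p _ => ?_
    by_cases hp : p ∈ A
    · simp [hp]
    · simp [hp]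
  rw [Finset.sum_congr rfl h1, Finset.sum_comm, Finset.mul_sum]
  refine Finset.sum_congr rfl fun p hp => ?_
  rw [← Finset.sum_mul]
  congr 1
  have h2 := mu_sum δ Z
  have h3 := mu_sup δ (Finset.singleton_subset_iff.2 hp)
  rw [Finset.card_singleton, pow_one] at h3
  have h4 : ∑ A ∈ Z.powerset, mu δ Z A = ∑ A ∈ Z.powerset, (if p ∈ A then 0 else mu δ Z A) +
      ∑ A ∈ Z.powerset, (if {p} ⊆ A then mu δ Z A else 0) := by
    rw [← Finset.sum_add_distrib]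
    refine Finset.sum_congr rfl fun A _ => ?_
    by_cases hpA : p ∈ A
    · simp [hpA]
    · simp [hpA]
  linarith

theorem mu_markov {δ : ℝ} (h0 : 0 ≤ δ) (h1 : δ ≤ 1) (Z : Finset ℕ) {F G : Finset ℕ → ℝ} (hF : ∀ A ⊆ Z, 0 ≤ F A)
    (hG : ∀ A ⊆ Z, 0 ≤ G A) {f g : ℝ} (hf : 0 < f) (hg : 0 < g) (h2 : ∑ A ∈ Z.powerset, mu δ Z A * F A ≤ f)
    (h3 : ∑ A ∈ Z.powerset, mu δ Z A * G A ≤ g) : ∃ A ⊆ Z, F A ≤ 3 * f ∧ G A ≤ 3 * g := by
  by_contra hcon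
  have h4 : ∀ A ∈ Z.powerset, 3 ≤ F A / f + G A / g := by
    intro A hA
    have hAZ := Finset.mem_powerset.1 hA
    by_contra hlt
    rw [not_le] at hlt
    have hF' := div_nonneg (hF A hAZ) hf.le
    have hG' := div_nonneg (hG A hAZ) hg.le
    refine hcon ⟨A, hAZ, ?_, ?_⟩
    · have : F A / f ≤ 3 := by linarith
      rwa [div_le_iff₀ hf] at this
    · have : G A / g ≤ 3 := by linarith
      rwa [div_le_iff₀ hg] at this
  have h5 : ∑ A ∈ Z.powerset, mu δ Z A * 3 ≤ ∑ A ∈ Z.powerset, mu δ Z A * (F A / f + G A / g) :=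
    Finset.sum_le_sum fun A hA => mul_le_mul_of_nonneg_left (h4 A hA) (mu_nonneg h0 h1 Z A)
  rw [← Finset.sum_mul, mu_sum, one_mul] at h5
  have h6 : ∑ A ∈ Z.powerset, mu δ Z A * (F A / f + G A / g) =
      (∑ A ∈ Z.powerset, mu δ Z A * F A) / f + (∑ A ∈ Z.powerset, mu δ Z A * G A) / g := by
    rw [Finset.sum_div, Finset.sum_div, ← Finset.sum_add_distrib]
    refine Finset.sum_congr rfl fun A _ => ?_
    ring
  have h7 : (∑ A ∈ Z.powerset, mu δ Z A * F A) / f ≤ 1 := by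
    rw [div_le_one hf]
    exact h2
  have h8 : (∑ A ∈ Z.powerset, mu δ Z A * G A) / g ≤ 1 := by
    rw [div_le_one hg]
    exact h3
  linarith

end BVQ
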