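import Pool.Agent.H17.BV.Defs
import Pool.Agent.H17.BX.Defs

/-!
# MP_028722, BQ: Bombieri-Vinogradov relative to a large random smooth modulus (definitions)

Overview: /team-store/H68_BVQ.md. The modulus is `md W A = W * ∏ p ∈ A, p`, `W` small (`W ≤ exp(ρ/2)`, `ρ = rh N = (log N)^(1/20)`), `A ⊆ Z` a random set of primes `≤ log N`
(every `p ∈ Z` is kept with probability `1 - δ`), `md W Z ≤ N^(1/70)`. The sums are over `d ∈ cp V D`: `1 ≤ d ≤ D`, `(d, V) = 1`.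
-/

open Finset H69LB

namespace BVQ

/-- the weight of the subset `A` of `Z` when every element is kept with probability `1 - δ` -/
noncomputable def mu (δ : ℝ) (Z A : Finset ℕ) : ℝ := (1 - δ) ^ A.card * δ ^ (Z \ A).card

/-- the number of the prime factors of `s` in `Z` -/
def tp (Z : Finset ℕ) (s : ℕ) : ℕ := (s.primeFactors ∩ Z).card

/-- the modulus -/
def md (W : ℕ) (A : Finset ℕ) : ℕ := W * ∏ p ∈ A, p

/-- the integers `1 ≤ d ≤ D` prime to `V` -/
def cp (V D : ℕ) : Finset ℕ := (Icc 1 D).filter (fun d => Nat.Coprime d V)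

/-- `X(r)`, and `0` for the multiples of `P` -/
noncomputable def XX (N P r : ℕ) : ℝ := if P ∣ r then 0 else BVL.XR N r

/-- conditions on `W` and the set `Z` of primes: nothing is divisible by `P`, the primes of `Z` do not divide `W` and are `≤ l` -/
structure Pl (P W : ℕ) (Z : Finset ℕ) (l : ℝ) : Prop where
  W1 : 1 ≤ W
  PW : ¬ P ∣ W
  prime : ∀ p ∈ Z, p.Prime
  ne : ∀ p ∈ Z, p ≠ P
  ndvd : ∀ p ∈ Z, ¬ p ∣ W
  le : ∀ p ∈ Z, (p : ℝ) ≤ l

theorem XX_nonneg (N P r : ℕ) : 0 ≤ XX N P r := by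
  unfold XX
  split_ifs
  · exact le_rfl
  · exact BVL.XR_nonneg N r

theorem XX_le (N P r : ℕ) : XX N P r ≤ BVL.XR N r := by
  unfold XX
  split_ifs
  · exact BVL.XR_nonneg N r
  · exact le_rfl

theorem mem_cp {V D d : ℕ} : d ∈ cp V D ↔ (1 ≤ d ∧ d ≤ D) ∧ Nat.Coprime d V := by
  unfold cp
  rw [Finset.mem_filter, Finset.mem_Icc]

theorem Pl.mono {P W : ℕ} {Z A : Finset ℕ} {l : ℝ} (h : Pl P W Z l) (hA : A ⊆ Z) : Pl P W A l :=
  ⟨h.W1, h.PW, fun p hp => h.prime p (hA hp), fun p hp => h.ne p (hA hp), fun p hp => h.ndvd p (hA hp),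
    fun p hp => h.le p (hA hp)⟩

theorem Pl.md_pos {P W : ℕ} {Z : Finset ℕ} {l : ℝ} (h : Pl P W Z l) : 1 ≤ md W Z := by
  unfold md
  exact Nat.mul_pos h.W1 (Finset.prod_pos fun p hp => (h.prime p hp).pos)

theorem md_dvd {W : ℕ} {A Z : Finset ℕ} (hA : A ⊆ Z) : md W A ∣ md W Z :=
  Nat.mul_dvd_mul_left _ (Finset.prod_dvd_prod_of_subset _ _ _ hA)

end BVQ
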