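import Pool.Agent.H68.BQ.Defs
import Pool.Agent.H17.UC.Dsg

/-!
# ROW Dgq: the structure `DsP` for the modulus `W`, with the errors `E d` of the progressions modulo `W d`

PROOF. Copy the proof of `UC.dsg` (`Pool/Agent/H17/UC/Dsg.lean`) with `E d` in place of `E (W d)` (there `E` is a function of the modulus `q = W d`, here of `d`) and with `hE` only for `d ∈ cp (P * V) Dm`: a squarefree `d ≤ Dm` with all prime factors `> w` and `¬ P ∣ d` is in `cp (P * V) Dm`, because the primes dividing `V` are `≤ w`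
(`Nat.Coprime.mul_right`, `Nat.coprime_of_dvd`; `(d, P) = 1` as `P` is prime and `¬ P ∣ d`). The primes dividing `W ∣ V` are `≤ w`. Second bound, sharper than in `dsg`: the number of `t < T` with `t ≡ a mod d` is at most `T/d + 1 ≤ 2 T/d ≤ 2 (W/φ(W)) T 2^ω(d)/d` (`W/φ(W) ≥ 1`), and
`0 ≤ Y/φ(d) ≤ (2 W T/φ(W)) (2^ω(d)/d)` (`dsg_li`, `dsg_phi`), so the absolute value of the difference is at most `2 (W/φ(W)) T 2^ω(d)/d`.
-/

open Finset EG H69PG H73PC UC

namespace BVQ

theorem dsgq {P w Dm W V k T N : ℕ} {E : ℕ → ℝ} (hP : P.Prime) (hW : 1 ≤ W) (hWV : W ∣ V) (hVw : ∀ p : ℕ, p.Prime → p ∣ V → p ≤ w)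
    (hk : 3 ≤ k) (hDk : Dm < k) (hDT : Dm ≤ T) (hkW : Nat.Coprime k W) (hN : k + W * T ≤ N + 1) (hE0 : ∀ d, 0 ≤ E d)
    (hE : ∀ d ∈ cp (P * V) Dm, ∀ a : ℕ, Nat.Coprime a (W * d) → ∀ y : ℕ, 2 ≤ y → y ≤ N →
      |((((Icc 1 y).filter (fun p => p.Prime ∧ p ≡ a [MOD W * d])).card : ℕ) : ℝ) -
        Pool.Agent.H17.ZB.Li y / (Nat.totient (W * d) : ℝ)| ≤ E d) :
    DsP P w Dm W (some k) ((range T).filter (fun t => (W * t + k).Prime))
      ((Pool.Agent.H17.ZB.Li ((k + W * T - 1 : ℕ) : ℝ) - Pool.Agent.H17.ZB.Li ((k - 1 : ℕ) : ℝ)) / (Nat.totient W : ℝ))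
      (fun d => min (2 * E d) (2 * ((W : ℝ) / (Nat.totient W : ℝ)) * T * 2 ^ d.primeFactors.card / d)) := by
  have hli0 : 0 ≤ Pool.Agent.H17.ZB.Li ((k + W * T - 1 : ℕ) : ℝ) -
      Pool.Agent.H17.ZB.Li ((k - 1 : ℕ) : ℝ) := by
    have h1 := dsb_li (W := W) (k := k) (T := T) (x := ((k + W * T : ℕ) : ℝ)) hk (by linarith)
    refine le_trans ?_ h1
    refine div_nonneg (by positivity) (Real.log_nonneg ?_)
    have : 1 ≤ k + W * T := by omega
    exact_mod_cast this
  have hY0 : 0 ≤ (Pool.Agent.H17.ZB.Li ((k + W * T - 1 : ℕ) : ℝ) -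
      Pool.Agent.H17.ZB.Li ((k - 1 : ℕ) : ℝ)) / (Nat.totient W : ℝ) :=
    div_nonneg hli0 (Nat.cast_nonneg _)
  have hWw : ∀ p : ℕ, p.Prime → p ∣ W → p ≤ w := fun p hp h => hVw p hp (h.trans hWV)
  refine ⟨hY0, fun d => le_min (mul_nonneg (by norm_num) (hE0 _)) (by positivity), ?_, ?_⟩
  · intro t ht p hp _ hpD _ j hj hd
    have hj' : k = j := by simpa using hj
    subst hj'
    rw [mem_filter, mem_range] at ht
    have h1 := (Nat.prime_dvd_prime_iff_eq hp ht.2).1 hd
    have h2 : k ≤ W * t + k := Nat.le_add_left _ _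
    omega
  · intro d hdsq hdD hdw hPd a ha
    have hWd : Nat.Coprime W d := by
      rw [Nat.coprime_comm]
      refine Nat.coprime_of_dvd fun p hp hpd hpW => ?_
      have h1 := hdw p hp hpd
      have h2 := hWw p hp hpW
      omega
    have hVd : Nat.Coprime d V := by
      refine Nat.coprime_of_dvd fun p hp hpd hpV => ?_
      have h1 := hdw p hp hpd
      have h2 := hVw p hp hpV
      omega
    have hPd' : Nat.Coprime d P := ((Nat.Prime.coprime_iff_not_dvd hP).2 hPd).symm
    have hd1 : 1 ≤ d := Nat.pos_of_ne_zero hdsq.ne_zero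
    have hdcp : d ∈ cp (P * V) Dm := mem_cp.2 ⟨⟨hd1, hdD⟩, Nat.Coprime.mul_right hPd' hVd⟩
    rw [Ph_some k hdsq]
    refine le_min ?_ ?_
    · have hak : Nat.Coprime (W * a + k) (W * d) := by
        refine Nat.Coprime.mul_right ?_ ?_
        · have h3 : Nat.Coprime (W * a + k) W ↔ Nat.Coprime k W := by
            rw [Nat.coprime_mul_left_add_left]
          exact h3.2 hkW
        · refine Nat.coprime_of_dvd fun p hp h1 h2 => ?_
          exact ha p hp h2 k (by simp) h1
      exact dsb_one (e := E d) hW hk hN hWd fun y hy hyN => hE d hdcp _ hak y hy hyN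
    · -- trivial bound
      have hdr : (0 : ℝ) < d := by exact_mod_cast hd1
      have hWr : (1 : ℝ) ≤ W := by exact_mod_cast hW
      have hTr : (0 : ℝ) ≤ T := Nat.cast_nonneg T
      have h2pos : (1 : ℝ) ≤ 2 ^ d.primeFactors.card := one_le_pow₀ (by norm_num)
      have hφ : (0 : ℝ) < Nat.totient d := by exact_mod_cast Nat.totient_pos.2 hd1
      have hφW : (1 : ℝ) ≤ Nat.totient W := by exact_mod_cast Nat.totient_pos.2 hW
      have hφW0 : (0 : ℝ) < Nat.totient W := by linarith
      obtain ⟨R, hR⟩ : ∃ R : ℝ, R = (W : ℝ) / (Nat.totient W : ℝ) := ⟨_, rfl⟩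
      have hR1 : 1 ≤ R := by
        rw [hR, le_div_iff₀ hφW0, one_mul]
        exact_mod_cast Nat.totient_le W
      rw [← hR]
      have hc1 : ((((range T).filter (fun t => (W * t + k).Prime)).filter
          (fun t => t ≡ a [MOD d])).card : ℝ) ≤ 2 * T / d := by
        have h1 := (abs_le.1 (Crt_count hd1 a T)).2
        have h2 : ((((range T).filter (fun t => (W * t + k).Prime)).filter
            (fun t => t ≡ a [MOD d])).card : ℝ) ≤
            (((range T).filter (fun t => t ≡ a [MOD d])).card : ℝ) := by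
          have : ((range T).filter (fun t => (W * t + k).Prime)).filter
            (fun t => t ≡ a [MOD d]) ⊆ (range T).filter (fun t => t ≡ a [MOD d]) :=
            filter_subset_filter _ (filter_subset _ _)
          exact_mod_cast card_le_card this
        have h3 : (1 : ℝ) ≤ T / d := by
          rw [le_div_iff₀ hdr, one_mul]
          exact_mod_cast hdD.trans hDT
        have h4 : (2 : ℝ) * T / d = T / d + T / d := by ring
        rw [h4]
        linarith
      have hbound1 : (2 : ℝ) * T / d ≤ 2 * R * T * 2 ^ d.primeFactors.card / d := by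
        refine div_le_div_of_nonneg_right ?_ hdr.le
        have e1 : (1 : ℝ) ≤ R * 2 ^ d.primeFactors.card := by nlinarith
        have e2 : (T : ℝ) * 1 ≤ T * (R * 2 ^ d.primeFactors.card) :=
          mul_le_mul_of_nonneg_left e1 hTr
        have e3 : 2 * (R : ℝ) * T * 2 ^ d.primeFactors.card =
          2 * (T * (R * 2 ^ d.primeFactors.card)) := by ring
        rw [e3]
        linarith
      have hY : (Pool.Agent.H17.ZB.Li ((k + W * T - 1 : ℕ) : ℝ) -
          Pool.Agent.H17.ZB.Li ((k - 1 : ℕ) : ℝ)) / (Nat.totient W : ℝ) ≤ 2 * (R * T) := by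
        rw [div_le_iff₀ hφW0]
        have h1 := dsg_li (W := W) (T := T) hk
        have h2 : 2 * (R * T) * (Nat.totient W : ℝ) = 2 * (W * T) := by
          rw [hR]
          field_simp
        linarith
      have hc2 : (Pool.Agent.H17.ZB.Li ((k + W * T - 1 : ℕ) : ℝ) -
          Pool.Agent.H17.ZB.Li ((k - 1 : ℕ) : ℝ)) / (Nat.totient W : ℝ) / (Nat.totient d : ℝ) ≤
          2 * R * T * 2 ^ d.primeFactors.card / d := by
        rw [div_le_div_iff₀ hφ hdr]
        have h1 := dsg_phi hdsq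
        have h2 : (Pool.Agent.H17.ZB.Li ((k + W * T - 1 : ℕ) : ℝ) -
          Pool.Agent.H17.ZB.Li ((k - 1 : ℕ) : ℝ)) / (Nat.totient W : ℝ) * d ≤
          2 * (R * T) * (2 ^ d.primeFactors.card * (Nat.totient d : ℝ)) :=
          mul_le_mul hY h1 hdr.le (by positivity)
        have h3 : 2 * (R * T) * (2 ^ d.primeFactors.card * (Nat.totient d : ℝ)) =
          2 * R * T * 2 ^ d.primeFactors.card * (Nat.totient d : ℝ) := by ring
        linarith
      have hc2' : 0 ≤ (Pool.Agent.H17.ZB.Li ((k + W * T - 1 : ℕ) : ℝ) -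
          Pool.Agent.H17.ZB.Li ((k - 1 : ℕ) : ℝ)) / (Nat.totient W : ℝ) / (Nat.totient d : ℝ) :=
        div_nonneg hY0 hφ.le
      have hc1' : (0 : ℝ) ≤ ((((range T).filter (fun t => (W * t + k).Prime)).filter
          (fun t => t ≡ a [MOD d])).card : ℝ) := Nat.cast_nonneg _
      rw [abs_le]
      constructor <;> linarith

end BVQ
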