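import Pool.Agent.H68.BQ.Piq
import Pool.Agent.H68.BQ.Dgq
import Pool.Agent.H17.UC.DsC
import Pool.Agent.H17.UC.Sgc

/-!
# ROW DsQ: the primes in the forms, modulus up to `x^(1/72)`

PROOF (model: `UC.dsU` in `Pool/Agent/H17/UC/DsU.lean`). `L = log x`, `N = ⌊x⌋₊`, `ρ = rh N`; `log N ≥ L/2`, `L^(1/20)/3 ≤ ρ/2`, `x^(1/72) ≤ N^(1/70)`, `⌊x^(3/8)⌋₊ ≤ ⌊N^(2/5)⌋₊` for large `x`, so `Pl P W0 Z (L/2)` gives `Pl P W0 Z (log N)` and `piq` applies: `P ≤ exp ρ ≤ exp(L^(1/20))`, `A`, `E`,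
`∑_{Z \ A} 1/p ≤ ρ^(-1/25) = (log N)^(-1/500) ≤ L^(-1/600)`. Put `W = md W0 A`, `V = md W0 Z`, `T = ⌊x/(4 W)⌋₊ ≥ x^(9/10) ≥ Dm = ⌊x^(3/8)⌋₊`, `Dm < x/3 ≤ k`, `k + W T ≤ 2x/3 + x/4 ≤ N + 1`. `dsgq` gives `DsP` with `Y = (Li - Li)/φ(W) ≥ W T/(φ(W) L)` (`dsb_li`) and `E' d = min (2 E d) (2 (W/φ(W)) T 2^ω(d)/d)`.
Errors: `Ep P E' d ≤ √(2 E d) √(2 (W/φ(W)) T 2^ω(d)/d)` for the squarefree `d ≤ Dm` with `¬ P ∣ d` in `ErS` (look at the definition of `ErS`; only `d` with prime factors `> w` or all squarefree `d`? if `ErS` contains `d` not in `cp (P V) Dm`, use `E d := 0` there: replace `E` by `fun d => if d ∈ cp (P V) Dm then E d else 0`, which is allowed in `dsgq`).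
Cauchy-Schwarz as in `dsU`: `ErS Dm C (Ep P E') ≤ √(2 ∑_{d ∈ cp} E d) √(∑_d (C²)^ω(d) 2 (W/φ(W)) T 2^ω(d)/d) ≤ √(2 N exp(-ρ^(9/10))/φ(W)) √(2 (W/φ(W)) T (c L)^(2 C²))` (`sgc` with `2 C²`) `= (1/φ(W)) √(4 N W T) exp(-ρ^(9/10)/2) (c L)^(C²)`, and `4 N W T ≤ x²`, `W T ≥ x/8`, so this is
`≤ (8 L) · Y · exp(-ρ^(9/10)/2 + L^(1/40) log(c L)) ≤ Y exp(-L^(1/25))` for large `x`: `ρ^(9/10) ≥ (L/2)^(9/200)`, and `L^(9/200)/4` dominates `L^(1/25) + L^(1/40) log(c L) + log(8 L)`.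
-/

open Finset EG H69PG H73PC UC

namespace BVQ

theorem dsQ_ev (c X : ℝ) (hc : 1 ≤ c) : ∃ x0 : ℝ, ∀ x : ℝ, x0 ≤ x → X ≤ x ∧ 64 ≤ x ∧ 32 ≤ Real.log x ∧
    2 ≤ x ^ (1 / 40 : ℝ) ∧ 2 ≤ x ^ (1 / 2520 : ℝ) ∧ 2 ≤ Real.log x ^ (1 / 3000 : ℝ) ∧
    Real.log (8 * Real.log x) + Real.log x ^ (1 / 25 : ℝ) +
      Real.log x ^ (1 / 40 : ℝ) * Real.log (c * Real.log x) ≤ Real.log x ^ (9 / 200 : ℝ) / 4 := by
  have t1 : ∀ᶠ L : ℝ in Filter.atTop, (32 : ℝ) ≤ L := Filter.eventually_ge_atTop _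
  have t2 : ∀ᶠ L : ℝ in Filter.atTop, (12 : ℝ) ≤ L ^ (1 / 200 : ℝ) :=
    (tendsto_rpow_atTop (by norm_num : (0 : ℝ) < 1 / 200)).eventually_ge_atTop _
  have t3 : ∀ᶠ L : ℝ in Filter.atTop, (2 : ℝ) ≤ L ^ (1 / 3000 : ℝ) :=
    (tendsto_rpow_atTop (by norm_num : (0 : ℝ) < 1 / 3000)).eventually_ge_atTop _
  have t4 : ∀ᶠ L : ℝ in Filter.atTop, (400 : ℝ) * (Real.log c + Real.log 8) ≤ L ^ (1 / 50 : ℝ) :=
    (tendsto_rpow_atTop (by norm_num : (0 : ℝ) < 1 / 50)).eventually_ge_atTop _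
  have t5 : ∀ᶠ L : ℝ in Filter.atTop, ‖Real.log L‖ ≤ 1 / 400 * ‖L ^ (1 / 50 : ℝ)‖ :=
    (isLittleO_log_rpow_atTop (by norm_num : (0 : ℝ) < 1 / 50)).bound (by norm_num)
  have tall := Real.tendsto_log_atTop.eventually (t1.and (t2.and (t3.and (t4.and t5))))
  have u1 : ∀ᶠ x : ℝ in Filter.atTop, (2 : ℝ) ≤ x ^ (1 / 40 : ℝ) :=
    (tendsto_rpow_atTop (by norm_num : (0 : ℝ) < 1 / 40)).eventually_ge_atTop _
  have u2 : ∀ᶠ x : ℝ in Filter.atTop, (2 : ℝ) ≤ x ^ (1 / 2520 : ℝ) :=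
    (tendsto_rpow_atTop (by norm_num : (0 : ℝ) < 1 / 2520)).eventually_ge_atTop _
  obtain ⟨x0, hx0⟩ := Filter.eventually_atTop.mp
    (tall.and ((Filter.eventually_ge_atTop (64 : ℝ)).and ((Filter.eventually_ge_atTop X).and (u1.and u2))))
  refine ⟨x0, fun x hx => ?_⟩
  obtain ⟨⟨g1, g2, g3, g4, g5⟩, g6, g7, g8, g9⟩ := hx0 x hx
  set L := Real.log x with hL
  have hL0 : 0 < L := by linarith
  have hL1 : 1 ≤ L := by linarith
  have hp50 : 0 ≤ L ^ (1 / 50 : ℝ) := Real.rpow_nonneg hL0.le _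
  have hp40 : 0 ≤ L ^ (1 / 40 : ℝ) := Real.rpow_nonneg hL0.le _
  rw [Real.norm_of_nonneg hp50] at g5
  have g5' : Real.log L ≤ 1 / 400 * L ^ (1 / 50 : ℝ) := (Real.le_norm_self _).trans g5
  have e1 : L ^ (1 / 25 : ℝ) * L ^ (1 / 200 : ℝ) = L ^ (9 / 200 : ℝ) := by
    rw [← Real.rpow_add hL0]; norm_num
  have e2 : L ^ (1 / 40 : ℝ) * L ^ (1 / 50 : ℝ) = L ^ (9 / 200 : ℝ) := by
    rw [← Real.rpow_add hL0]; norm_num
  have hp25 : 0 ≤ L ^ (1 / 25 : ℝ) := Real.rpow_nonneg hL0.le _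
  have hp9 : 0 ≤ L ^ (9 / 200 : ℝ) := Real.rpow_nonneg hL0.le _
  have b2 : 12 * L ^ (1 / 25 : ℝ) ≤ L ^ (9 / 200 : ℝ) := by
    rw [← e1, mul_comm]
    exact mul_le_mul_of_nonneg_left g2 hp25
  have hlogc : 0 ≤ Real.log c := Real.log_nonneg hc
  have hlog8 : 0 ≤ Real.log 8 := Real.log_nonneg (by norm_num)
  have b3 : 200 * Real.log (c * L) ≤ L ^ (1 / 50 : ℝ) := by
    rw [Real.log_mul (by linarith) hL0.ne']
    linarith
  have b4 : 200 * Real.log (8 * L) ≤ L ^ (1 / 50 : ℝ) := by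
    rw [Real.log_mul (by norm_num) hL0.ne']
    linarith
  have b5 : 200 * (L ^ (1 / 40 : ℝ) * Real.log (c * L)) ≤ L ^ (9 / 200 : ℝ) := by
    rw [← e2]
    calc 200 * (L ^ (1 / 40 : ℝ) * Real.log (c * L)) = L ^ (1 / 40 : ℝ) * (200 * Real.log (c * L)) := by ring
      _ ≤ L ^ (1 / 40 : ℝ) * L ^ (1 / 50 : ℝ) := mul_le_mul_of_nonneg_left b3 hp40
  have b6 : L ^ (1 / 50 : ℝ) ≤ L ^ (9 / 200 : ℝ) := Real.rpow_le_rpow_of_exponent_le hL1 (by norm_num)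
  exact ⟨g7, g6, g1, g8, g9, g3, by linarith⟩

theorem dsQ : ∃ x0 : ℝ, ∀ x : ℝ, x0 ≤ x → ∃ P : ℕ, P.Prime ∧ (P : ℝ) ≤ Real.exp (Real.log x ^ (1 / 20 : ℝ)) ∧
    ∀ (W0 : ℕ) (Z : Finset ℕ), Pl P W0 Z (Real.log x / 2) → (W0 : ℝ) ≤ Real.exp (Real.log x ^ (1 / 20 : ℝ) / 3) →
    (md W0 Z : ℝ) ≤ x ^ (1 / 72 : ℝ) → ∃ A ⊆ Z, ∑ p ∈ Z \ A, 1 / (p : ℝ) ≤ Real.log x ^ (-(1 / 600) : ℝ) ∧
    ∀ w k : ℕ, (∀ p : ℕ, p.Prime → p ∣ md W0 Z → p ≤ w) → x / 3 ≤ (k : ℝ) → (k : ℝ) ≤ 2 * x / 3 → Nat.Coprime k (md W0 A) →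
    ∃ (Y : ℝ) (E : ℕ → ℝ),
    DsP P w ⌊x ^ (3 / 8 : ℝ)⌋₊ (md W0 A) (some k) ((range ⌊x / (4 * (md W0 A : ℝ))⌋₊).filter (fun t => (md W0 A * t + k).Prime)) Y E ∧
    (md W0 A : ℝ) * ⌊x / (4 * (md W0 A : ℝ))⌋₊ / ((Nat.totient (md W0 A) : ℝ) * Real.log x) ≤ Y ∧
    ∀ C : ℝ, 1 ≤ C → C ≤ Real.log x ^ (1 / 80 : ℝ) →
      ErS ⌊x ^ (3 / 8 : ℝ)⌋₊ C (Ep P E) ≤ Y * Real.exp (-Real.log x ^ (1 / 25 : ℝ)) := by
  classical
  obtain ⟨c, hc1, hsg⟩ := sgc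
  obtain ⟨N0, hN0⟩ := piq
  obtain ⟨x0, hx0⟩ := dsQ_ev c ((N0 : ℝ) + 1) hc1
  refine ⟨x0, fun x hx => ?_⟩
  obtain ⟨hxN0, hx64, hL32, hx40, hx2520, hL3000, hbig⟩ := hx0 x hx
  set L := Real.log x with hLdef
  have hxpos : 0 < x := by linarith
  have hx1 : 1 ≤ x := by linarith
  have hLpos : 0 < L := by linarith
  set N := ⌊x⌋₊ with hNdef
  have hNx : (N : ℝ) ≤ x := Nat.floor_le (by linarith)
  have hNx2 : x - 1 ≤ (N : ℝ) := by
    have := Nat.lt_floor_add_one x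
    linarith
  have hNN0 : N0 ≤ N := by
    have h1 : (N0 : ℝ) ≤ N := by linarith
    exact_mod_cast h1
  have hNpos : (0 : ℝ) < N := by linarith
  have hNhalf : x / 2 ≤ (N : ℝ) := by linarith
  obtain ⟨P, hP, hPs, hmain⟩ := hN0 N hNN0
  have hlogNL : Real.log N ≤ L := Real.log_le_log hNpos hNx
  have hrhL : BVX.rh N ≤ L ^ (1 / 20 : ℝ) :=
    Real.rpow_le_rpow (Real.log_natCast_nonneg N) hlogNL (by norm_num)
  have hlogN : L / 2 ≤ Real.log N := by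
    have h1 : Real.log (x / 2) ≤ Real.log N := Real.log_le_log (by linarith) hNhalf
    rw [Real.log_div (by linarith) (by norm_num)] at h1
    have h2 : Real.log 2 ≤ 1 := by
      have := Real.log_two_lt_d9
      linarith
    linarith
  have hrh1 : (L / 2) ^ (1 / 20 : ℝ) ≤ BVX.rh N := Real.rpow_le_rpow (by linarith) hlogN (by norm_num)
  have hrhpos : 0 < BVX.rh N := lt_of_lt_of_le (Real.rpow_pos_of_pos (by linarith) _) hrh1
  refine ⟨P, hP, hPs.trans (Real.exp_le_exp.2 hrhL), ?_⟩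
  intro W0 Z hPl hW0 hV
  have hPl' : Pl P W0 Z (Real.log N) :=
    ⟨hPl.W1, hPl.PW, hPl.prime, hPl.ne, hPl.ndvd, fun p hp => (hPl.le p hp).trans hlogN⟩
  have hW0' : (W0 : ℝ) ≤ Real.exp (BVX.rh N / 2) := by
    refine hW0.trans (Real.exp_le_exp.2 ?_)
    have h1 : L ^ (1 / 20 : ℝ) / (3 / 2) ≤ (L / 2) ^ (1 / 20 : ℝ) := by
      rw [Real.div_rpow (by linarith) (by norm_num)]
      refine div_le_div_of_nonneg_left (Real.rpow_nonneg hLpos.le _) (Real.rpow_pos_of_pos (by norm_num) _) ?_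
      have h2 : (2 : ℝ) ≤ (3 / 2) ^ (20 : ℝ) := by norm_num
      calc (2 : ℝ) ^ (1 / 20 : ℝ) ≤ ((3 / 2) ^ (20 : ℝ)) ^ (1 / 20 : ℝ) := Real.rpow_le_rpow (by norm_num) h2 (by norm_num)
        _ = 3 / 2 := by rw [← Real.rpow_mul (by norm_num)]; norm_num
    linarith
  have hV' : (md W0 Z : ℝ) ≤ (N : ℝ) ^ (1 / 70 : ℝ) := by
    refine hV.trans ?_
    have h1 : (x / 2) ^ (1 / 70 : ℝ) ≤ (N : ℝ) ^ (1 / 70 : ℝ) := Real.rpow_le_rpow (by linarith) hNhalf (by norm_num)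
    refine le_trans ?_ h1
    rw [Real.div_rpow (by linarith) (by norm_num), le_div_iff₀ (Real.rpow_pos_of_pos (by norm_num) _)]
    have h2 : (2 : ℝ) ^ (1 / 70 : ℝ) ≤ 2 := by
      calc (2 : ℝ) ^ (1 / 70 : ℝ) ≤ (2 : ℝ) ^ (1 : ℝ) := Real.rpow_le_rpow_of_exponent_le (by norm_num) (by norm_num)
        _ = 2 := Real.rpow_one 2
    have h3 : x ^ (1 / 70 : ℝ) = x ^ (1 / 72 : ℝ) * x ^ (1 / 2520 : ℝ) := by
      rw [← Real.rpow_add hxpos]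
      norm_num
    rw [h3]
    exact mul_le_mul_of_nonneg_left (h2.trans hx2520) (Real.rpow_nonneg hxpos.le _)
  obtain ⟨A, hAZ, hA1, E, hE0, hE1, hE2⟩ := hmain W0 Z hPl' hW0' hV'
  refine ⟨A, hAZ, ?_, ?_⟩
  · refine hA1.trans ?_
    have h1 : BVX.rh N ^ (-(1 / 25) : ℝ) ≤ ((L / 2) ^ (1 / 20 : ℝ)) ^ (-(1 / 25) : ℝ) :=
      Real.rpow_le_rpow_of_nonpos (Real.rpow_pos_of_pos (by linarith) _) hrh1 (by norm_num)
    refine h1.trans ?_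
    rw [← Real.rpow_mul (by linarith)]
    have h2 : (1 / 20 * -(1 / 25) : ℝ) = -(1 / 500) := by norm_num
    rw [h2, Real.div_rpow (by linarith) (by norm_num), div_le_iff₀ (Real.rpow_pos_of_pos (by norm_num) _)]
    have h3 : L ^ (-(1 / 500) : ℝ) * L ^ (1 / 3000 : ℝ) = L ^ (-(1 / 600) : ℝ) := by
      rw [← Real.rpow_add hLpos]
      norm_num
    have h4 : (1 : ℝ) ≤ L ^ (1 / 3000 : ℝ) * 2 ^ (-(1 / 500) : ℝ) := by
      have h5 : (1 / 2 : ℝ) ≤ 2 ^ (-(1 / 500) : ℝ) := by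
        calc (1 / 2 : ℝ) = 2 ^ (-1 : ℝ) := by rw [Real.rpow_neg_one]; norm_num
          _ ≤ _ := Real.rpow_le_rpow_of_exponent_le (by norm_num) (by norm_num)
      calc (1 : ℝ) = 2 * (1 / 2) := by norm_num
        _ ≤ _ := mul_le_mul hL3000 h5 (by norm_num) (by linarith)
    calc L ^ (-(1 / 500) : ℝ) = L ^ (-(1 / 500) : ℝ) * 1 := (mul_one _).symm
      _ ≤ L ^ (-(1 / 500) : ℝ) * (L ^ (1 / 3000 : ℝ) * 2 ^ (-(1 / 500) : ℝ)) :=
        mul_le_mul_of_nonneg_left h4 (Real.rpow_nonneg hLpos.le _)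
      _ = L ^ (-(1 / 600) : ℝ) * 2 ^ (-(1 / 500) : ℝ) := by rw [← mul_assoc, h3]
  intro w k hVw hk1 hk2 hkW
  obtain ⟨V, hVd⟩ : ∃ V : ℕ, V = md W0 Z := ⟨_, rfl⟩
  obtain ⟨W, hWd⟩ : ∃ W : ℕ, W = md W0 A := ⟨_, rfl⟩
  rw [← hVd] at hV hVw hE1 hE2
  rw [← hWd] at hkW hE1 hE2 ⊢
  have hWV : W ∣ V := by rw [hVd, hWd]; exact md_dvd hAZ
  have hV1 : 1 ≤ V := by rw [hVd]; exact hPl.md_pos
  have hW1 : 1 ≤ W := Nat.pos_of_dvd_of_pos hWV hV1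
  have hW0n : 0 < W := hW1
  have hWr : (1 : ℝ) ≤ (W : ℝ) := by exact_mod_cast hW1
  have hWx : (W : ℝ) ≤ x ^ (1 / 72 : ℝ) := by
    have h1 : (W : ℝ) ≤ V := by exact_mod_cast Nat.le_of_dvd hV1 hWV
    linarith
  have hx38p : 0 < x ^ (3 / 8 : ℝ) := Real.rpow_pos_of_pos hxpos _
  have hx12e : x ^ (1 / 2 : ℝ) * x ^ (1 / 2 : ℝ) = x := by
    rw [← Real.rpow_add hxpos]
    norm_num
  have hx12 : (8 : ℝ) ≤ x ^ (1 / 2 : ℝ) := by
    have h1 : (0 : ℝ) ≤ x ^ (1 / 2 : ℝ) := Real.rpow_nonneg hxpos.le _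
    by_contra hh
    push Not at hh
    have h2 := mul_lt_mul'' hh hh h1 h1
    linarith
  have hx12x : 8 * x ^ (1 / 2 : ℝ) ≤ x :=
    (mul_le_mul_of_nonneg_right hx12 (by linarith)).trans hx12e.le
  have hWD : (W : ℝ) * x ^ (3 / 8 : ℝ) ≤ x ^ (1 / 2 : ℝ) := by
    calc (W : ℝ) * x ^ (3 / 8 : ℝ) ≤ x ^ (1 / 72 : ℝ) * x ^ (3 / 8 : ℝ) := mul_le_mul_of_nonneg_right hWx hx38p.le
      _ = x ^ (7 / 18 : ℝ) := by
        rw [← Real.rpow_add hxpos]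
        norm_num
      _ ≤ x ^ (1 / 2 : ℝ) := Real.rpow_le_rpow_of_exponent_le hx1 (by norm_num)
  have hx38l : x ^ (3 / 8 : ℝ) ≤ x ^ (1 / 2 : ℝ) :=
    Real.rpow_le_rpow_of_exponent_le hx1 (by norm_num)
  have hW8 : (W : ℝ) ≤ x / 8 := by
    have h1 : x ^ (1 / 72 : ℝ) ≤ x ^ (1 / 2 : ℝ) := Real.rpow_le_rpow_of_exponent_le hx1 (by norm_num)
    linarith
  set Dm := ⌊x ^ (3 / 8 : ℝ)⌋₊ with hDm
  set T := ⌊x / (4 * (W : ℝ))⌋₊ with hTdef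
  have hDmx : (Dm : ℝ) ≤ x ^ (3 / 8 : ℝ) := Nat.floor_le hx38p.le
  have hDk : Dm < k := by
    have h1 : (Dm : ℝ) < k := by linarith
    exact_mod_cast h1
  have hk3 : 3 ≤ k := by
    have h1 : (3 : ℝ) ≤ k := by linarith
    exact_mod_cast h1
  have hDT : Dm ≤ T := by
    apply Nat.floor_le_floor
    rw [le_div_iff₀ (by linarith)]
    linarith
  have hDmN : Dm ≤ ⌊(N : ℝ) ^ (2 / 5 : ℝ)⌋₊ := by
    apply Nat.floor_le_floor
    have h1 : (x / 2) ^ (2 / 5 : ℝ) ≤ (N : ℝ) ^ (2 / 5 : ℝ) := Real.rpow_le_rpow (by linarith) hNhalf (by norm_num)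
    refine le_trans ?_ h1
    rw [Real.div_rpow (by linarith) (by norm_num), le_div_iff₀ (Real.rpow_pos_of_pos (by norm_num) _)]
    have h2 : (2 : ℝ) ^ (2 / 5 : ℝ) ≤ 2 := by
      calc (2 : ℝ) ^ (2 / 5 : ℝ) ≤ (2 : ℝ) ^ (1 : ℝ) := Real.rpow_le_rpow_of_exponent_le (by norm_num) (by norm_num)
        _ = 2 := Real.rpow_one 2
    have h3 : x ^ (2 / 5 : ℝ) = x ^ (3 / 8 : ℝ) * x ^ (1 / 40 : ℝ) := by
      rw [← Real.rpow_add hxpos]
      norm_num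
    rw [h3]
    exact mul_le_mul_of_nonneg_left (h2.trans hx40) hx38p.le
  have hcpD : cp (P * V) Dm ⊆ cp (P * V) ⌊(N : ℝ) ^ (2 / 5 : ℝ)⌋₊ := by
    intro d hd
    rw [mem_cp] at hd ⊢
    exact ⟨⟨hd.1.1, hd.1.2.trans hDmN⟩, hd.2⟩
  have hT : (T : ℝ) ≤ x / (4 * (W : ℝ)) := Nat.floor_le (by positivity)
  have hT2 : x / (4 * (W : ℝ)) < (T : ℝ) + 1 := Nat.lt_floor_add_one _
  have hWT : (W : ℝ) * T ≤ x / 4 := by
    calc (W : ℝ) * T ≤ W * (x / (4 * (W : ℝ))) := mul_le_mul_of_nonneg_left hT (by linarith)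
      _ = x / 4 := by field_simp
  have hWT2 : x / 8 ≤ (W : ℝ) * T := by
    have h1 : W * (x / (4 * (W : ℝ))) ≤ W * ((T : ℝ) + 1) := mul_le_mul_of_nonneg_left hT2.le (by linarith)
    have h2 : W * (x / (4 * (W : ℝ))) = x / 4 := by field_simp
    rw [h2] at h1
    linarith
  have hkN : k + W * T ≤ N + 1 := by
    have h1 : ((k + W * T : ℕ) : ℝ) ≤ x := by
      push_cast
      linarith
    have h2 := Nat.le_floor h1
    omega
  obtain ⟨Er, hEr⟩ : ∃ Er : ℕ → ℝ, Er = fun d => if d ∈ cp (P * V) Dm then E d else 0 := ⟨_, rfl⟩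
  have hEr0 : ∀ d, 0 ≤ Er d := by
    intro d
    rw [hEr]
    show 0 ≤ (if d ∈ cp (P * V) Dm then E d else 0)
    split_ifs
    · exact hE0 d
    · exact le_rfl
  have hEre : ∀ d ∈ cp (P * V) Dm, Er d = E d := by
    intro d hd
    rw [hEr]
    show (if d ∈ cp (P * V) Dm then E d else 0) = E d
    rw [if_pos hd]
  have hD := dsgq (P := P) (w := w) (Dm := Dm) (W := W) (V := V) (k := k) (T := T) (N := N)
    (E := Er) hP hW1 hWV hVw hk3 hDk hDT hkW hkN hEr0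
    (fun d hd a ha y hy hyN => by
      rw [hEre d hd]
      exact hE1 d (hcpD hd) a ha y hy hyN)
  set Y := (Pool.Agent.H17.ZB.Li ((k + W * T - 1 : ℕ) : ℝ) - Pool.Agent.H17.ZB.Li ((k - 1 : ℕ) : ℝ)) / (Nat.totient W : ℝ)
    with hY
  have hφ : (0 : ℝ) < (Nat.totient W : ℝ) := by exact_mod_cast Nat.totient_pos.2 hW0n
  have hYlow : (W : ℝ) * T / ((Nat.totient W : ℝ) * L) ≤ Y := by
    have h1 := dsb_li (W := W) (k := k) (T := T) (x := x) hk3 (by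
      push_cast
      linarith)
    rw [hY, le_div_iff₀ hφ]
    refine le_trans (le_of_eq ?_) h1
    rw [← hLdef]
    field_simp
  refine ⟨Y, _, hD, hYlow, ?_⟩
  intro C hC1 hC2
  have hC0 : 0 < C := by linarith
  obtain ⟨R, hR⟩ : ∃ R : ℝ, R = 2 * ((W : ℝ) / (Nat.totient W : ℝ)) * T := ⟨_, rfl⟩
  have hR0 : 0 ≤ R := by rw [hR]; positivity
  rw [← hR]
  obtain ⟨φ, hφd⟩ : ∃ φ : ℝ, φ = (Nat.totient W : ℝ) := ⟨_, rfl⟩
  obtain ⟨a, ha⟩ : ∃ a : ℝ, a = BVX.rh N ^ (9 / 10 : ℝ) := ⟨_, rfl⟩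
  rw [← hφd] at hφ hR hE2 hYlow
  rw [← ha] at hE2
  -- Cauchy-Schwarz
  have hcs := dsU_cs (s := (Icc 1 Dm).filter (fun d => Squarefree d)) (P := P) (W := 1) (E := Er)
    (R := R) (C := C) hEr0 hR0 hC1
  simp only [one_mul] at hcs
  have hA : ∑ d ∈ (Icc 1 Dm).filter (fun d => Squarefree d), (if P ∣ d then 0 else 2 * Er d) ≤
      2 * (x * Real.exp (-a) / φ) := by
    have h1 : ∑ d ∈ (Icc 1 Dm).filter (fun d => Squarefree d), (if P ∣ d then 0 else 2 * Er d) ≤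
        ∑ d ∈ (Icc 1 Dm), (if d ∈ cp (P * V) Dm then 2 * E d else 0) := by
      refine le_trans (Finset.sum_le_sum (g := fun d => if d ∈ cp (P * V) Dm then 2 * E d else 0) fun d hd => ?_)
        (sum_le_sum_of_subset_of_nonneg (filter_subset _ _) fun d _ _ => ?_)
      · split_ifs with h2 h3 h3
        · have := hE0 d
          linarith
        · exact le_rfl
        · rw [hEre d h3]
        · rw [hEr]
          show 2 * (if d ∈ cp (P * V) Dm then E d else 0) ≤ 0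
          rw [if_neg h3, mul_zero]
      · split_ifs
        · have := hE0 d
          linarith
        · exact le_rfl
    have h2 : ∑ d ∈ (Icc 1 Dm), (if d ∈ cp (P * V) Dm then 2 * E d else 0) = 2 * ∑ d ∈ cp (P * V) Dm, E d := by
      rw [← Finset.sum_filter, Finset.mul_sum]
      refine Finset.sum_congr ?_ fun _ _ => rfl
      ext d
      rw [mem_filter, mem_cp, mem_Icc]
      tauto
    have h3 : ∑ d ∈ cp (P * V) Dm, E d ≤ ∑ d ∈ cp (P * V) ⌊(N : ℝ) ^ (2 / 5 : ℝ)⌋₊, E d :=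
      sum_le_sum_of_subset_of_nonneg hcpD fun d _ _ => hE0 d
    have h4 : ∑ d ∈ cp (P * V) ⌊(N : ℝ) ^ (2 / 5 : ℝ)⌋₊, E d ≤ x * Real.exp (-a) / φ := by
      rw [le_div_iff₀ hφ, mul_comm]
      exact hE2.trans (mul_le_mul_of_nonneg_right hNx (Real.exp_pos _).le)
    linarith
  have hDm2 : 2 ≤ Dm := by
    apply Nat.le_floor
    have h1 : (64 : ℝ) ^ (3 / 8 : ℝ) ≤ x ^ (3 / 8 : ℝ) := Real.rpow_le_rpow (by norm_num) hx64 (by norm_num)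
    refine le_trans ?_ h1
    have h2 : (64 : ℝ) ^ (1 / 6 : ℝ) ≤ 64 ^ (3 / 8 : ℝ) :=
      Real.rpow_le_rpow_of_exponent_le (by norm_num) (by norm_num)
    refine le_trans (le_of_eq ?_) h2
    rw [show (64 : ℝ) = 2 ^ (6 : ℝ) by norm_num, ← Real.rpow_mul (by norm_num)]
    norm_num
  have hcL : 1 ≤ c * L := one_le_mul_of_one_le_of_one_le hc1 (by linarith)
  have hB : ∑ d ∈ (Icc 1 Dm).filter (fun d => Squarefree d), R * ((2 * C ^ 2) ^ d.primeFactors.card / (d : ℝ)) ≤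
      R * (c * L) ^ (2 * C ^ 2) := by
    rw [← Finset.mul_sum]
    have hC21 : 1 ≤ C ^ 2 := one_le_pow₀ hC1
    have h1 := hsg (2 * C ^ 2) Dm (by linarith) hDm2
    have hDm1 : (1 : ℝ) ≤ Dm := by exact_mod_cast (by omega : 1 ≤ Dm)
    have h2 : Real.log Dm ≤ L := by
      apply Real.log_le_log (by linarith)
      linarith
    have h3 : 0 ≤ Real.log Dm := Real.log_nonneg hDm1
    have h4 : (c * Real.log Dm) ^ (2 * C ^ 2) ≤ (c * L) ^ (2 * C ^ 2) :=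
      Real.rpow_le_rpow (mul_nonneg (by linarith) h3) (mul_le_mul_of_nonneg_left h2 (by linarith)) (by positivity)
    exact mul_le_mul_of_nonneg_left (h1.trans h4) hR0
  have hErS : ErS Dm C (Ep P (fun d => min (2 * Er d) (R * 2 ^ d.primeFactors.card / d))) ≤
      x / φ * Real.exp (-(a / 2) + L ^ (1 / 40 : ℝ) * Real.log (c * L)) := by
    rw [ErS]
    refine hcs.trans ?_
    have h1 : √(∑ d ∈ (Icc 1 Dm).filter (fun d => Squarefree d), if P ∣ d then 0 else 2 * Er d) ≤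
        √(2 * (x * Real.exp (-a) / φ)) := Real.sqrt_le_sqrt hA
    have h2 : √(∑ d ∈ (Icc 1 Dm).filter (fun d => Squarefree d), R * ((2 * C ^ 2) ^ d.primeFactors.card / (d : ℝ))) ≤
        √(R * (c * L) ^ (2 * C ^ 2)) := Real.sqrt_le_sqrt hB
    refine (mul_le_mul h1 h2 (Real.sqrt_nonneg _) (Real.sqrt_nonneg _)).trans ?_
    rw [← Real.sqrt_mul (by positivity)]
    apply Real.sqrt_le_iff.2
    refine ⟨by positivity, ?_⟩
    have h3 : (c * L) ^ (2 * C ^ 2) ≤ Real.exp (2 * (L ^ (1 / 40 : ℝ) * Real.log (c * L))) := by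
      rw [Real.rpow_def_of_pos (by linarith)]
      apply Real.exp_le_exp.2
      have h4 : C ^ 2 ≤ L ^ (1 / 40 : ℝ) := by
        have h5 : (L ^ (1 / 80 : ℝ)) ^ 2 = L ^ (1 / 40 : ℝ) := by
          rw [← Real.rpow_natCast, ← Real.rpow_mul hLpos.le]
          norm_num
        rw [← h5]
        exact pow_le_pow_left₀ hC0.le hC2 2
      have h6 : 0 ≤ Real.log (c * L) := Real.log_nonneg hcL
      have h66 := mul_le_mul_of_nonneg_right h4 h6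
      calc Real.log (c * L) * (2 * C ^ 2) = 2 * (C ^ 2 * Real.log (c * L)) := by ring
        _ ≤ 2 * (L ^ (1 / 40 : ℝ) * Real.log (c * L)) := mul_le_mul_of_nonneg_left h66 (by norm_num)
    have h7 : (x / φ * Real.exp (-(a / 2) + L ^ (1 / 40 : ℝ) * Real.log (c * L))) ^ 2 =
        x ^ 2 / φ ^ 2 * (Real.exp (-a) * Real.exp (2 * (L ^ (1 / 40 : ℝ) * Real.log (c * L)))) := by
      rw [mul_pow, ← Real.exp_nat_mul, ← Real.exp_add, div_pow]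
      rw [show ((2 : ℕ) : ℝ) * (-(a / 2) + L ^ (1 / 40 : ℝ) * Real.log (c * L)) =
        -a + 2 * (L ^ (1 / 40 : ℝ) * Real.log (c * L)) by push_cast; ring]
    rw [h7]
    have h8 : 0 < Real.exp (-a) := Real.exp_pos _
    calc 2 * (x * Real.exp (-a) / φ) * (R * (c * L) ^ (2 * C ^ 2))
        ≤ 2 * (x * Real.exp (-a) / φ) * (R * Real.exp (2 * (L ^ (1 / 40 : ℝ) * Real.log (c * L)))) :=
          mul_le_mul_of_nonneg_left (mul_le_mul_of_nonneg_left h3 hR0) (by positivity)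
      _ = 4 * x * (W * T) / φ ^ 2 * (Real.exp (-a) * Real.exp (2 * (L ^ (1 / 40 : ℝ) * Real.log (c * L)))) := by
          rw [hR]
          field_simp
          ring
      _ ≤ x ^ 2 / φ ^ 2 * (Real.exp (-a) * Real.exp (2 * (L ^ (1 / 40 : ℝ) * Real.log (c * L)))) := by
          refine mul_le_mul_of_nonneg_right ?_ (by positivity)
          refine div_le_div_of_nonneg_right ?_ (by positivity)
          have h88 := mul_le_mul_of_nonneg_left hWT hxpos.le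
          calc 4 * x * ((W : ℝ) * T) = 4 * (x * ((W : ℝ) * T)) := by ring
            _ ≤ 4 * (x * (x / 4)) := mul_le_mul_of_nonneg_left h88 (by norm_num)
            _ = x ^ 2 := by ring
  refine hErS.trans ?_
  have hY2 : x / (8 * L * φ) ≤ Y := by
    refine le_trans ?_ hYlow
    rw [div_le_div_iff₀ (by positivity) (by positivity)]
    calc x * (φ * L) = x / 8 * (8 * L * φ) := by ring
      _ ≤ W * T * (8 * L * φ) := mul_le_mul_of_nonneg_right hWT2 (by positivity)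
  refine le_trans ?_ (mul_le_mul_of_nonneg_right hY2 (Real.exp_pos _).le)
  have ha1 : L ^ (9 / 200 : ℝ) / 2 ≤ a := by
    rw [ha]
    have h1 : ((L / 2) ^ (1 / 20 : ℝ)) ^ (9 / 10 : ℝ) ≤ BVX.rh N ^ (9 / 10 : ℝ) :=
      Real.rpow_le_rpow (Real.rpow_nonneg (by linarith) _) hrh1 (by norm_num)
    refine le_trans ?_ h1
    rw [← Real.rpow_mul (by linarith), Real.div_rpow (by linarith) (by norm_num)]
    have h2 : (1 / 20 * (9 / 10) : ℝ) = 9 / 200 := by norm_num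
    rw [h2]
    have h3 : (2 : ℝ) ^ (9 / 200 : ℝ) ≤ 2 := by
      calc (2 : ℝ) ^ (9 / 200 : ℝ) ≤ (2 : ℝ) ^ (1 : ℝ) := Real.rpow_le_rpow_of_exponent_le (by norm_num) (by norm_num)
        _ = 2 := Real.rpow_one 2
    exact div_le_div_of_nonneg_left (Real.rpow_nonneg hLpos.le _) (Real.rpow_pos_of_pos (by norm_num) _) h3
  have h9 : 8 * L = Real.exp (Real.log (8 * L)) := (Real.exp_log (by linarith)).symm
  have h10 : x / φ * Real.exp (-(a / 2) + L ^ (1 / 40 : ℝ) * Real.log (c * L)) =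
      x / (8 * L * φ) * ((8 * L) * Real.exp (-(a / 2) + L ^ (1 / 40 : ℝ) * Real.log (c * L))) := by
    field_simp
  rw [h10]
  refine mul_le_mul_of_nonneg_left ?_ (by positivity)
  rw [h9, ← Real.exp_add]
  apply Real.exp_le_exp.2
  linarith

end BVQ
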