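import Pool.Agent.H68.BQ.Av1

/-!
# ROW Dvq: divisors of the modulus

PROOF. `dv_split`: `(s, t) ↦ s t` is a bijection of `W.divisors ×ˢ d.divisors` with `(W d).divisors` for coprime `W`, `d` (Mathlib: `Nat.Coprime.sum_divisors_mul`-type lemmas, or `Nat.divisors_mul`, `Finset.sum_bij'` with `r ↦ (gcd r W, gcd r d)`), then `Finset.sum_product`/`sum_comm`.
`dv_mem`. Let `V = md W Z`, `T = s.primeFactors ∩ Z`. (→) `md W A ∣ V`. If `p ∈ Z` divides `s`, it divides `W ∏_{q ∈ A} q`, not `W`, so it divides, hence equals, some `q ∈ A` (`Prime.dvd_finset_prod_iff`, `Nat.prime_dvd_prime_iff_eq`). (←) `V = md W A * ∏_{p ∈ Z \ A} p` (`Finset.prod_sdiff`) and `s` is coprime to every `p ∈ Z \ A`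
(otherwise `p ∣ s`, `p ∈ T ⊆ A`), so to the product (`Nat.Coprime.prod_right`), hence `s ∣ md W A` (`Nat.Coprime.dvd_of_dvd_mul_right`). `md W A ≠ 0`.
`dv_avg`. By `dv_mem`, `∑_{s ∣ md W A} f s = ∑_{s ∣ md W Z} if s.primeFactors ∩ Z ⊆ A then f s else 0`; exchange the sums and use `mu_sup` with `B = s.primeFactors ∩ Z` (`B.card = tp Z s`).
-/

open Finset

namespace BVQ

theorem dv_split {W d : ℕ} (hW : 1 ≤ W) (hd : 1 ≤ d) (h : Nat.Coprime W d) (X : ℕ → ℝ) :
    ∑ r ∈ (W * d).divisors, X r = ∑ t ∈ d.divisors, ∑ s ∈ W.divisors, X (s * t) := by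
  have h1 : (W * d).divisors = (W.divisors ×ˢ d.divisors).image fun p => p.1 * p.2 := by
    rw [Nat.divisors_mul, Finset.mul_def]
  rw [h1, Finset.sum_image h.mul_injOn_divisors, Finset.sum_product, Finset.sum_comm]

theorem dv_mem {P W : ℕ} {Z A : Finset ℕ} {l : ℝ} (h : Pl P W Z l) (hA : A ⊆ Z) (s : ℕ) :
    s ∈ (md W A).divisors ↔ s ∈ (md W Z).divisors ∧ s.primeFactors ∩ Z ⊆ A := by
  have hAne : md W A ≠ 0 := by have := (h.mono hA).md_pos; omega
  have hZne : md W Z ≠ 0 := by have := h.md_pos; omega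
  rw [Nat.mem_divisors, Nat.mem_divisors]
  constructor
  · rintro ⟨hs, _⟩
    refine ⟨⟨hs.trans (md_dvd hA), hZne⟩, ?_⟩
    intro p hp
    rw [Finset.mem_inter, Nat.mem_primeFactors] at hp
    obtain ⟨⟨hpp, hps, _⟩, hpZ⟩ := hp
    have h2 : p ∣ W * ∏ q ∈ A, q := hps.trans hs
    rcases (Nat.Prime.dvd_mul hpp).1 h2 with h3 | h3
    · exact absurd h3 (h.ndvd p hpZ)
    · obtain ⟨q, hq, hpq⟩ := (Prime.dvd_finsetProd_iff hpp.prime _).1 h3
      have h4 := (Nat.prime_dvd_prime_iff_eq hpp (h.prime q (hA hq))).1 hpq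
      rw [h4]; exact hq
  · rintro ⟨⟨hs, _⟩, hT⟩
    refine ⟨?_, hAne⟩
    have hV : md W Z = md W A * ∏ p ∈ Z \ A, p := by
      unfold md
      rw [mul_assoc, mul_comm (∏ p ∈ A, p), Finset.prod_sdiff hA]
    have hsne : s ≠ 0 := by
      rintro rfl
      exact hZne (Nat.eq_zero_of_zero_dvd hs)
    have hcop : Nat.Coprime s (∏ p ∈ Z \ A, p) := by
      refine Nat.Coprime.prod_right fun p hp => ?_
      rw [Finset.mem_sdiff] at hp
      have hpp := h.prime p hp.1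
      rw [Nat.coprime_comm, Nat.Prime.coprime_iff_not_dvd hpp]
      intro hps
      exact hp.2 (hT (Finset.mem_inter.2 ⟨Nat.mem_primeFactors.2 ⟨hpp, hps, hsne⟩, hp.1⟩))
    rw [hV] at hs
    exact Nat.Coprime.dvd_of_dvd_mul_right hcop hs

theorem dv_avg {P W : ℕ} {Z : Finset ℕ} {l : ℝ} (h : Pl P W Z l) (δ : ℝ) (f : ℕ → ℝ) :
    ∑ A ∈ Z.powerset, mu δ Z A * ∑ s ∈ (md W A).divisors, f s = ∑ s ∈ (md W Z).divisors, (1 - δ) ^ tp Z s * f s := by
  have h1 : ∀ A ∈ Z.powerset, mu δ Z A * ∑ s ∈ (md W A).divisors, f s =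
      ∑ s ∈ (md W Z).divisors, (if s.primeFactors ∩ Z ⊆ A then mu δ Z A else 0) * f s := by
    intro A hA
    rw [Finset.mem_powerset] at hA
    have h2 : (md W A).divisors = (md W Z).divisors.filter (fun s => s.primeFactors ∩ Z ⊆ A) := by
      ext s
      rw [Finset.mem_filter]
      exact dv_mem h hA s
    rw [h2, Finset.sum_filter, Finset.mul_sum]
    refine Finset.sum_congr rfl fun s _ => ?_
    split_ifs <;> simp
  rw [Finset.sum_congr rfl h1, Finset.sum_comm]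
  refine Finset.sum_congr rfl fun s _ => ?_
  rw [← Finset.sum_mul, mu_sup δ Finset.inter_subset_right]
  rfl

end BVQ
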