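import Pool.Agent.H68.BQ.Ijq
import Pool.Agent.H17.BV.Lrg
import Pool.Agent.H17.BX.Psx

/-!
# ROW Dyq: the conductors `s t` with `t > exp(ρ/4)`

PROOF. `xsq`: `BVL.lrg_XR` with `ε = 1/10`, `Q = M ≤ N^(1/60)`: the four terms are `≤ K (log N)^7 N` times `1, 4, 1, 1` (`N^(1 - 1/40) M ≤ N`, `N^(1/2) M² ≤ N`, `N^(1/10) M³ ≤ N`), `C = 7 K`.
`dyq`: `ρ = rh N`, `R1 = ⌊exp(ρ/4)⌋₊`, `R = ⌊N^(2/5)⌋₊`, `η = 1/100`. `X t = if (t, V) = 1 then ∑_{s ∣ V} XR N (s t) else 0`. For every `Q`: `∑_{t ≤ Q} X t ≤ ∑_{r ≤ V Q} XR N r` (`inj_sum`) `≤ a0 + a1 Q + a2 Q² + a3 Q³` by `lrg_XR` (`ε = 1/10`) with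
`a0 = K (log N)^7 N`, `a1 = 4 K (log N)^7 N^(1-1/40) V`, `a2 = K (log N)^7 N^(1/2) V²`, `a3 = K (log N)^7 N^(1/10) V³`. `1/φ(t) ≤ C1 t^(-1+η)` (`omega_bound` with `C = 1`). Row DYD (`Pool/Agent/H17/BV/Dyd.lean`, last theorem) on `Ioc R1 R` (`t > exp(ρ/4)` implies `t > R1`; `R1 ≤ R` for large `N`):
`∑ ≤ C1 (log R/log 2 + 1) 8 (a0 R1^(-1+η) + R^η (a1 + a2 R + a3 R²))`. `R1 ≥ exp(ρ/4)/2`: first term `≤ C (log N)^8 N exp(-(99/100) ρ/4)`; with `V ≤ N^(1/70)`, `R ≤ N^(2/5)`: the others are `≤ C (log N)^8 (N^(1 - 1/40 + 1/70 + 1/250) + N^(1/2 + 1/35 + 2/5 + 1/250) + N^(1/10 + 3/70 + 4/5 + 1/250))`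
`≤ C (log N)^8 N^(1 - 1/200)` (`1/40 - 1/70 - 1/250 = 47/7000 ≥ 1/200`). For large `N` both are `≤ N exp(-ρ/8)/2`, since `log N = ρ^20` (`psx_grow`, `lrx_ev`, compare `lrx_core` in `Pool/Agent/H17/BX/Lrx.lean`, which is almost the same computation).
-/

open Finset H69LB

namespace BVQ

open BVL

theorem xsq : ∃ C : ℝ, 0 ≤ C ∧ ∀ N : ℕ, 2 ≤ N → ∀ M : ℕ, (M : ℝ) ≤ (N : ℝ) ^ (1 / 60 : ℝ) →
    ∑ r ∈ Icc 1 M, XR N r ≤ C * Real.log N ^ 7 * N := by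
  obtain ⟨K, hK, h⟩ := lrg_XR (ε := 1 / 10) (by norm_num) (by norm_num)
  refine ⟨7 * K, by positivity, fun N hN M hM => ?_⟩
  have h1 := h N hN M
  have hx1 : (1 : ℝ) ≤ (N : ℝ) := by
    have : 1 ≤ N := by omega
    exact_mod_cast this
  have hx0 : (0 : ℝ) < (N : ℝ) := by linarith
  have hL : 0 ≤ Real.log N := Real.log_nonneg hx1
  obtain ⟨T, hT⟩ : ∃ T, T = K * Real.log N ^ 7 := ⟨_, rfl⟩
  have hT0 : 0 ≤ T := by rw [hT]; positivity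
  rw [← hT] at h1
  have hM0 : (0 : ℝ) ≤ M := Nat.cast_nonneg M
  have le1 : ∀ a : ℝ, a ≤ 1 → (N : ℝ) ^ a ≤ N := by
    intro a ha
    calc (N : ℝ) ^ a ≤ (N : ℝ) ^ (1 : ℝ) := Real.rpow_le_rpow_of_exponent_le hx1 ha
      _ = N := Real.rpow_one _
  have m1 : (N : ℝ) ^ (1 - 1 / 10 / 4 : ℝ) * M ≤ N := by
    calc (N : ℝ) ^ (1 - 1 / 10 / 4 : ℝ) * M ≤ (N : ℝ) ^ (1 - 1 / 10 / 4 : ℝ) * (N : ℝ) ^ (1 / 60 : ℝ) :=
          mul_le_mul_of_nonneg_left hM (by positivity)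
      _ = (N : ℝ) ^ ((1 - 1 / 10 / 4 : ℝ) + 1 / 60) := (Real.rpow_add hx0 _ _).symm
      _ ≤ N := le1 _ (by norm_num)
  have m2 : (N : ℝ) ^ (1 / 2 : ℝ) * (M : ℝ) ^ 2 ≤ N := by
    calc (N : ℝ) ^ (1 / 2 : ℝ) * (M : ℝ) ^ 2 ≤ (N : ℝ) ^ (1 / 2 : ℝ) * ((N : ℝ) ^ (1 / 60 : ℝ)) ^ 2 :=
          mul_le_mul_of_nonneg_left (pow_le_pow_left₀ hM0 hM 2) (by positivity)
      _ = (N : ℝ) ^ ((1 / 2 : ℝ) + 1 / 60 * 2) := by
          rw [← Real.rpow_natCast ((N : ℝ) ^ (1 / 60 : ℝ)) 2, ← Real.rpow_mul hx0.le, Real.rpow_add hx0]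
          norm_num
      _ ≤ N := le1 _ (by norm_num)
  have m3 : (N : ℝ) ^ (1 / 10 : ℝ) * (M : ℝ) ^ 3 ≤ N := by
    calc (N : ℝ) ^ (1 / 10 : ℝ) * (M : ℝ) ^ 3 ≤ (N : ℝ) ^ (1 / 10 : ℝ) * ((N : ℝ) ^ (1 / 60 : ℝ)) ^ 3 :=
          mul_le_mul_of_nonneg_left (pow_le_pow_left₀ hM0 hM 3) (by positivity)
      _ = (N : ℝ) ^ ((1 / 10 : ℝ) + 1 / 60 * 3) := by
          rw [← Real.rpow_natCast ((N : ℝ) ^ (1 / 60 : ℝ)) 3, ← Real.rpow_mul hx0.le, Real.rpow_add hx0]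
          norm_num
      _ ≤ N := le1 _ (by norm_num)
  have n1 := mul_le_mul_of_nonneg_left m1 hT0
  have n2 := mul_le_mul_of_nonneg_left m2 hT0
  have n3 := mul_le_mul_of_nonneg_left m3 hT0
  have e1 : 4 * T * (N : ℝ) ^ (1 - 1 / 10 / 4 : ℝ) * M = 4 * (T * ((N : ℝ) ^ (1 - 1 / 10 / 4 : ℝ) * M)) := by
    ring
  have e2 : T * (N : ℝ) ^ (1 / 2 : ℝ) * (M : ℝ) ^ 2 = T * ((N : ℝ) ^ (1 / 2 : ℝ) * (M : ℝ) ^ 2) := by ring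
  have e3 : T * (N : ℝ) ^ (1 / 10 : ℝ) * (M : ℝ) ^ 3 = T * ((N : ℝ) ^ (1 / 10 : ℝ) * (M : ℝ) ^ 3) := by ring
  rw [e1, e2, e3] at h1
  have e4 : 7 * K * Real.log N ^ 7 * N = 7 * (T * N) := by rw [hT]; ring
  rw [e4]
  linarith

theorem dyq : ∃ N0 : ℕ, ∀ N : ℕ, N0 ≤ N → ∀ V : ℕ, 1 ≤ V → (V : ℝ) ≤ (N : ℝ) ^ (1 / 70 : ℝ) →
    ∑ t ∈ (cp V ⌊(N : ℝ) ^ (2 / 5 : ℝ)⌋₊).filter (fun t : ℕ => Real.exp (BVX.rh N / 4) < (t : ℝ)),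
      1 / (Nat.totient t : ℝ) * ∑ s ∈ V.divisors, XR N (s * t) ≤ N * Real.exp (-(BVX.rh N / 8)) := by
  obtain ⟨K, hK, hXR⟩ := lrg_XR (ε := 1 / 10) (by norm_num) (by norm_num)
  obtain ⟨C1, hC1, hom⟩ := omega_bound (C := 1) (by norm_num) (η := 1 / 100) (by norm_num)
  obtain ⟨N1, hN1⟩ := BVX.psx_ev (BVX.psx_grow (192 * K * C1) 160 (b := 1 / 10) (by norm_num))
  obtain ⟨N2, hN2⟩ := BVX.psx_ev (Filter.eventually_ge_atTop (45 : ℝ))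
  refine ⟨max 2 (max N1 N2), ?_⟩
  intro N hN V hV hVN
  have hN2' : 2 ≤ N := le_trans (le_max_left _ _) hN
  have hNN1 : N1 ≤ N := le_trans (le_trans (le_max_left _ _) (le_max_right _ _)) hN
  have hNN2 : N2 ≤ N := le_trans (le_trans (le_max_right _ _) (le_max_right _ _)) hN
  have hx1 : (1 : ℝ) ≤ (N : ℝ) := by
    have : 1 ≤ N := by omega
    exact_mod_cast this
  have hx0 : (0 : ℝ) < (N : ℝ) := by linarith
  have hbig0 := hN1 N hNN1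
  have hρ45 := hN2 N hNN2
  have hLρ : BVX.rh N ^ 20 = Real.log N := BVX.rh_pow N
  obtain ⟨L, hL⟩ : ∃ L, L = Real.log N := ⟨_, rfl⟩
  obtain ⟨ρ, hρ⟩ : ∃ ρ, ρ = BVX.rh N := ⟨_, rfl⟩
  rw [← hρ] at hbig0 hρ45 hLρ ⊢
  rw [← hL] at hLρ
  have hρ1 : 1 ≤ ρ := by linarith
  have hρ0 : 0 < ρ := by linarith
  have hL1 : 1 ≤ L := by
    rw [← hLρ]
    exact one_le_pow₀ hρ1
  have hL0 : 0 < L := by linarith
  have hbig : 192 * K * C1 * L ^ 8 ≤ Real.exp (1 / 10 * ρ) := by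
    have h2 : L ^ 8 = ρ ^ 160 := by
      rw [← hLρ, ← pow_mul]
    rw [h2]
    exact hbig0
  have hρL : 45 * ρ ≤ L := by
    have h1 : ρ ^ 2 ≤ L := by
      rw [← hLρ]
      exact pow_le_pow_right₀ hρ1 (by norm_num)
    have h2 : 45 * ρ ≤ ρ * ρ := mul_le_mul_of_nonneg_right hρ45 hρ0.le
    rw [sq] at h1
    linarith
  have hexpN : ∀ a : ℝ, (N : ℝ) ^ a = Real.exp (L * a) := fun a => by
    rw [hL]
    exact Real.rpow_def_of_pos hx0 a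
  have hL4 : Real.exp (ρ / 4) ≤ (N : ℝ) ^ (2 / 5 : ℝ) := by
    rw [hexpN]
    apply Real.exp_le_exp.2
    linarith
  obtain ⟨R1, hR1⟩ : ∃ R1, R1 = ⌊Real.exp (ρ / 4)⌋₊ := ⟨_, rfl⟩
  obtain ⟨R, hR⟩ : ∃ R, R = ⌊(N : ℝ) ^ (2 / 5 : ℝ)⌋₊ := ⟨_, rfl⟩
  rw [← hR]
  have hLB1 : (1 : ℝ) ≤ Real.exp (ρ / 4) := Real.one_le_exp (by positivity)
  have hR11 : 1 ≤ R1 := by rw [hR1]; exact Nat.floor_pos.mpr hLB1
  have hRR : R1 ≤ R := by rw [hR1, hR]; exact Nat.floor_le_floor hL4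
  have hR0 : (1 : ℝ) ≤ (R : ℝ) := by
    have : 1 ≤ R := hR11.trans hRR
    exact_mod_cast this
  have hRle : (R : ℝ) ≤ (N : ℝ) ^ (2 / 5 : ℝ) := by rw [hR]; exact Nat.floor_le (by positivity)
  have hV1 : (1 : ℝ) ≤ (V : ℝ) := by exact_mod_cast hV
  obtain ⟨T, hT⟩ : ∃ T, T = K * L ^ 7 := ⟨_, rfl⟩
  have hT0 : 0 ≤ T := by rw [hT]; positivity
  classical
  obtain ⟨X, hX⟩ : ∃ X : ℕ → ℝ, ∀ t, X t =
      if Nat.Coprime t V then ∑ s ∈ V.divisors, XR N (s * t) else 0 := ⟨_, fun _ => rfl⟩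
  have hX0 : ∀ t, 0 ≤ X t := by
    intro t
    rw [hX]
    split_ifs
    · exact Finset.sum_nonneg fun s _ => XR_nonneg N _
    · exact le_rfl
  -- step 1
  have s1 : ∑ t ∈ (cp V R).filter (fun t : ℕ => Real.exp (ρ / 4) < (t : ℝ)),
      1 / (Nat.totient t : ℝ) * ∑ s ∈ V.divisors, XR N (s * t) ≤
      C1 * ∑ r ∈ Ioc R1 R, (r : ℝ) ^ (-1 + 1 / 100 : ℝ) * X r := by
    rw [Finset.mul_sum]
    have t1 : ∀ r ∈ (cp V R).filter (fun r : ℕ => Real.exp (ρ / 4) < (r : ℝ)),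
        1 / (Nat.totient r : ℝ) * ∑ s ∈ V.divisors, XR N (s * r) ≤
        C1 * ((r : ℝ) ^ (-1 + 1 / 100 : ℝ) * X r) := by
      intro r hr
      rw [Finset.mem_filter, mem_cp] at hr
      have h1 := hom r hr.1.1.1
      rw [one_pow] at h1
      have h2 : X r = ∑ s ∈ V.divisors, XR N (s * r) := by rw [hX, if_pos hr.1.2]
      rw [← h2]
      have := mul_le_mul_of_nonneg_right h1 (hX0 r)
      linarith
    refine (Finset.sum_le_sum t1).trans ?_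
    apply Finset.sum_le_sum_of_subset_of_nonneg
    · intro r hr
      rw [Finset.mem_filter, mem_cp] at hr
      rw [Finset.mem_Ioc]
      refine ⟨?_, hr.1.1.2⟩
      have h1 : (R1 : ℝ) ≤ Real.exp (ρ / 4) := by rw [hR1]; exact Nat.floor_le (Real.exp_pos _).le
      have h2 : (R1 : ℝ) < r := lt_of_le_of_lt h1 hr.2
      exact_mod_cast h2
    · intro r _ _
      have h1 : (0 : ℝ) ≤ (r : ℝ) ^ (-1 + 1 / 100 : ℝ) := Real.rpow_nonneg (Nat.cast_nonneg _) _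
      exact mul_nonneg hC1 (mul_nonneg h1 (hX0 r))
  -- partial sums
  have hpart : ∀ Q : ℕ, ∑ t ∈ Icc 1 Q, X t ≤ T * N + 4 * T * (N : ℝ) ^ (1 - 1 / 10 / 4 : ℝ) * V * Q +
      T * (N : ℝ) ^ (1 / 2 : ℝ) * V ^ 2 * Q ^ 2 + T * (N : ℝ) ^ (1 / 10 : ℝ) * V ^ 3 * Q ^ 3 := by
    intro Q
    have h1 : ∑ t ∈ Icc 1 Q, X t = ∑ x ∈ V.divisors ×ˢ (Icc 1 Q).filter (fun t => Nat.Coprime t V),
        XR N (x.1 * x.2) := by
      rw [Finset.sum_product_right, Finset.sum_filter]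
      exact Finset.sum_congr rfl fun t _ => hX t
    have h2 := inj_sum (V := V) (M := V * Q) hV (F := fun r => XR N r) (fun r => XR_nonneg N r)
      (V.divisors ×ˢ (Icc 1 Q).filter (fun t => Nat.Coprime t V)) (by
        intro x hx
        rw [Finset.mem_product, Finset.mem_filter, Finset.mem_Icc, Nat.mem_divisors] at hx
        refine ⟨hx.1.1, hx.2.2, hx.2.1.1, ?_⟩
        exact Nat.mul_le_mul (Nat.le_of_dvd (by omega) hx.1.1) hx.2.1.2)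
    have h3 := hXR N hN2' (V * Q)
    rw [h1]
    refine h2.trans (h3.trans (le_of_eq ?_))
    rw [hT, hL]
    push_cast
    ring
  -- step 2
  have s2 := dyd (X := X) hX0
    (a0 := T * N) (a1 := 4 * T * (N : ℝ) ^ (1 - 1 / 10 / 4 : ℝ) * V)
    (a2 := T * (N : ℝ) ^ (1 / 2 : ℝ) * V ^ 2) (a3 := T * (N : ℝ) ^ (1 / 10 : ℝ) * V ^ 3)
    (by positivity) (by positivity) (by positivity) (by positivity)
    hR11 hRR (fun Q _ => hpart Q) (η := 1 / 100) (by norm_num) (by norm_num)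
  -- step 3
  have s3 : 8 * (Real.log R / Real.log 2 + 1) ≤ 24 * L := by
    have h1 : Real.log R ≤ L := by
      rw [hL]
      apply Real.log_le_log (by linarith)
      calc (R : ℝ) ≤ (N : ℝ) ^ (2 / 5 : ℝ) := hRle
        _ ≤ (N : ℝ) ^ (1 : ℝ) := Real.rpow_le_rpow_of_exponent_le hx1 (by norm_num)
        _ = N := Real.rpow_one _
    have h2 : (1 / 2 : ℝ) ≤ Real.log 2 := by
      have := Real.log_two_gt_d9
      linarith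
    have h3 : Real.log R / Real.log 2 ≤ 2 * L := by
      rw [div_le_iff₀ (by linarith)]
      nlinarith
    linarith
  have s4 : (R1 : ℝ) ^ (-1 + 1 / 100 : ℝ) ≤ 2 * Real.exp (-(9 / 40 * ρ)) := by
    have h1 : Real.exp (ρ / 4) / 2 ≤ (R1 : ℝ) := by rw [hR1]; exact lrg_floor_half hLB1
    have h2 : 0 < Real.exp (ρ / 4) / 2 := by positivity
    have h3 : (R1 : ℝ) ^ (-1 + 1 / 100 : ℝ) ≤ (Real.exp (ρ / 4) / 2) ^ (-1 + 1 / 100 : ℝ) :=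
      Real.rpow_le_rpow_of_nonpos h2 h1 (by norm_num)
    have h4 : (Real.exp (ρ / 4) / 2) ^ (-1 + 1 / 100 : ℝ) =
        Real.exp (ρ / 4 * (-1 + 1 / 100)) * (1 / 2 : ℝ) ^ (-1 + 1 / 100 : ℝ) := by
      rw [div_eq_mul_one_div, Real.mul_rpow (by positivity) (by norm_num), ← Real.exp_mul]
    have h5 : Real.exp (ρ / 4 * (-1 + 1 / 100)) ≤ Real.exp (-(9 / 40 * ρ)) := by
      apply Real.exp_le_exp.2
      linarith
    have h6 : (1 / 2 : ℝ) ^ (-1 + 1 / 100 : ℝ) ≤ 2 := by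
      have h7 : (1 / 2 : ℝ) ^ (-1 + 1 / 100 : ℝ) ≤ (1 / 2 : ℝ) ^ (-1 : ℝ) :=
        Real.rpow_le_rpow_of_exponent_ge (by norm_num) (by norm_num) (by norm_num)
      have h8 : (1 / 2 : ℝ) ^ (-1 : ℝ) = 2 := by
        rw [Real.rpow_neg_one]
        norm_num
      linarith
    calc (R1 : ℝ) ^ (-1 + 1 / 100 : ℝ) ≤
          Real.exp (ρ / 4 * (-1 + 1 / 100)) * (1 / 2 : ℝ) ^ (-1 + 1 / 100 : ℝ) := h3.trans h4.le
      _ ≤ Real.exp (-(9 / 40 * ρ)) * 2 := mul_le_mul h5 h6 (by positivity) (by positivity)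
      _ = _ := by ring
  have s5 : (R : ℝ) ^ (1 / 100 : ℝ) ≤ (N : ℝ) ^ (1 / 250 : ℝ) := by
    calc (R : ℝ) ^ (1 / 100 : ℝ) ≤ ((N : ℝ) ^ (2 / 5 : ℝ)) ^ (1 / 100 : ℝ) :=
          Real.rpow_le_rpow (by linarith) hRle (by norm_num)
      _ = (N : ℝ) ^ ((2 / 5 : ℝ) * (1 / 100)) := by rw [← Real.rpow_mul hx0.le]
      _ ≤ (N : ℝ) ^ (1 / 250 : ℝ) := Real.rpow_le_rpow_of_exponent_le hx1 (by norm_num)
  obtain ⟨Y, hY⟩ : ∃ Y, Y = (N : ℝ) ^ (1 - 3 / 280 : ℝ) := ⟨_, rfl⟩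
  have s6 : (N : ℝ) ^ (1 - 1 / 10 / 4 : ℝ) * V ≤ Y := by
    rw [hY]
    calc (N : ℝ) ^ (1 - 1 / 10 / 4 : ℝ) * V ≤ (N : ℝ) ^ (1 - 1 / 10 / 4 : ℝ) * (N : ℝ) ^ (1 / 70 : ℝ) :=
          mul_le_mul_of_nonneg_left hVN (by positivity)
      _ = (N : ℝ) ^ ((1 - 1 / 10 / 4 : ℝ) + 1 / 70) := (Real.rpow_add hx0 _ _).symm
      _ ≤ _ := Real.rpow_le_rpow_of_exponent_le hx1 (by norm_num)
  have pw : ∀ (x a : ℝ) (k : ℕ), 0 ≤ x → x ≤ (N : ℝ) ^ a → x ^ k ≤ (N : ℝ) ^ (a * k) := by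
    intro x a k h0 h
    calc x ^ k ≤ ((N : ℝ) ^ a) ^ k := pow_le_pow_left₀ h0 h k
      _ = (N : ℝ) ^ (a * k) := by
          rw [← Real.rpow_natCast, ← Real.rpow_mul hx0.le]
  have s7 : (N : ℝ) ^ (1 / 2 : ℝ) * V ^ 2 * R ≤ Y := by
    rw [hY]
    have h1 := pw V (1 / 70) 2 (by linarith) hVN
    calc (N : ℝ) ^ (1 / 2 : ℝ) * V ^ 2 * R ≤
          (N : ℝ) ^ (1 / 2 : ℝ) * (N : ℝ) ^ ((1 / 70 : ℝ) * (2 : ℕ)) * (N : ℝ) ^ (2 / 5 : ℝ) := by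
            gcongr
      _ = (N : ℝ) ^ ((1 / 2 : ℝ) + (1 / 70 : ℝ) * (2 : ℕ) + 2 / 5) := by
          rw [Real.rpow_add hx0, Real.rpow_add hx0]
      _ ≤ _ := Real.rpow_le_rpow_of_exponent_le hx1 (by norm_num)
  have s7' : (N : ℝ) ^ (1 / 10 : ℝ) * V ^ 3 * R ^ 2 ≤ Y := by
    rw [hY]
    have h1 := pw V (1 / 70) 3 (by linarith) hVN
    have h2 := pw R (2 / 5) 2 (by linarith) hRle
    calc (N : ℝ) ^ (1 / 10 : ℝ) * V ^ 3 * R ^ 2 ≤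
          (N : ℝ) ^ (1 / 10 : ℝ) * (N : ℝ) ^ ((1 / 70 : ℝ) * (3 : ℕ)) *
            (N : ℝ) ^ ((2 / 5 : ℝ) * (2 : ℕ)) := by
            gcongr
      _ = (N : ℝ) ^ ((1 / 10 : ℝ) + (1 / 70 : ℝ) * (3 : ℕ) + (2 / 5 : ℝ) * (2 : ℕ)) := by
          rw [Real.rpow_add hx0, Real.rpow_add hx0]
      _ ≤ _ := Real.rpow_le_rpow_of_exponent_le hx1 (by norm_num)
  have hEq : Real.exp (-(9 / 40 * ρ)) = Real.exp (-(ρ / 8)) * (Real.exp (1 / 10 * ρ))⁻¹ := by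
    rw [← Real.exp_neg, ← Real.exp_add]
    congr 1
    ring
  have s8 : (R : ℝ) ^ (1 / 100 : ℝ) * (4 * T * (N : ℝ) ^ (1 - 1 / 10 / 4 : ℝ) * V +
      T * (N : ℝ) ^ (1 / 2 : ℝ) * V ^ 2 * R + T * (N : ℝ) ^ (1 / 10 : ℝ) * V ^ 3 * R ^ 2) ≤
      6 * T * (N * Real.exp (-(9 / 40 * ρ))) := by
    have h1 : 4 * T * (N : ℝ) ^ (1 - 1 / 10 / 4 : ℝ) * V +
      T * (N : ℝ) ^ (1 / 2 : ℝ) * V ^ 2 * R + T * (N : ℝ) ^ (1 / 10 : ℝ) * V ^ 3 * R ^ 2 ≤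
      6 * T * Y := by
      have h2 := mul_le_mul_of_nonneg_left s6 hT0
      have h3 := mul_le_mul_of_nonneg_left s7 hT0
      have h4 := mul_le_mul_of_nonneg_left s7' hT0
      have e1 : 4 * T * (N : ℝ) ^ (1 - 1 / 10 / 4 : ℝ) * V = 4 * (T * ((N : ℝ) ^ (1 - 1 / 10 / 4 : ℝ) * V)) := by
        ring
      have e2 : T * (N : ℝ) ^ (1 / 2 : ℝ) * V ^ 2 * R = T * ((N : ℝ) ^ (1 / 2 : ℝ) * V ^ 2 * R) := by ring
      have e3 : T * (N : ℝ) ^ (1 / 10 : ℝ) * V ^ 3 * R ^ 2 = T * ((N : ℝ) ^ (1 / 10 : ℝ) * V ^ 3 * R ^ 2) := by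
        ring
      rw [e1, e2, e3]
      linarith
    have h5 : (N : ℝ) ^ (1 / 250 : ℝ) * Y ≤ N * Real.exp (-(9 / 40 * ρ)) := by
      rw [hY, ← Real.rpow_add hx0]
      have h6 : (N : ℝ) ^ ((1 / 250 : ℝ) + (1 - 3 / 280)) ≤ (N : ℝ) ^ (1 - 1 / 200 : ℝ) :=
        Real.rpow_le_rpow_of_exponent_le hx1 (by norm_num)
      refine h6.trans ?_
      rw [sub_eq_add_neg, Real.rpow_add hx0, Real.rpow_one]
      refine mul_le_mul_of_nonneg_left ?_ hx0.le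
      rw [hexpN]
      apply Real.exp_le_exp.2
      linarith
    calc _ ≤ (N : ℝ) ^ (1 / 250 : ℝ) * (6 * T * Y) :=
          mul_le_mul s5 h1 (by positivity) (by positivity)
      _ = 6 * T * ((N : ℝ) ^ (1 / 250 : ℝ) * Y) := by ring
      _ ≤ _ := mul_le_mul_of_nonneg_left h5 (by positivity)
  have s9 : T * N * (R1 : ℝ) ^ (-1 + 1 / 100 : ℝ) ≤ 2 * T * (N * Real.exp (-(9 / 40 * ρ))) := by
    have := mul_le_mul_of_nonneg_left s4 (show 0 ≤ T * N by positivity)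
    linarith
  -- total
  have s10 : ∑ r ∈ Ioc R1 R, (r : ℝ) ^ (-1 + 1 / 100 : ℝ) * X r ≤
      24 * L * (2 * T * (N * Real.exp (-(9 / 40 * ρ))) + 6 * T * (N * Real.exp (-(9 / 40 * ρ)))) := by
    refine s2.trans ?_
    apply mul_le_mul s3 (add_le_add s9 s8) (by positivity) (by positivity)
  have hfin : C1 * (24 * L * (2 * T * (N * Real.exp (-(9 / 40 * ρ))) +
      6 * T * (N * Real.exp (-(9 / 40 * ρ))))) ≤ N * Real.exp (-(ρ / 8)) := by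
    have e1 : C1 * (24 * L * (2 * T * (N * Real.exp (-(9 / 40 * ρ))) +
        6 * T * (N * Real.exp (-(9 / 40 * ρ))))) =
        (192 * K * C1 * L ^ 8) * (Real.exp (1 / 10 * ρ))⁻¹ * (N * Real.exp (-(ρ / 8))) := by
      rw [hEq, hT]
      ring
    rw [e1]
    have h1 : 192 * K * C1 * L ^ 8 * (Real.exp (1 / 10 * ρ))⁻¹ ≤ 1 := by
      rw [← div_eq_mul_inv, div_le_one (Real.exp_pos _)]
      exact hbig
    have h2 : 0 ≤ N * Real.exp (-(ρ / 8)) := by positivity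
    calc _ ≤ 1 * (N * Real.exp (-(ρ / 8))) := mul_le_mul_of_nonneg_right h1 h2
      _ = _ := one_mul _
  exact s1.trans ((mul_le_mul_of_nonneg_left s10 hC1).trans hfin)

end BVQ
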