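import Pool.Agent.H68.BQ.Defs

/-!
# ROW Ijq: the pairs `(s, t)`, `s ∣ V`, `(t, V) = 1`, are determined by `s t`; small conductors

PROOF. `inj_sum`: `x ↦ x.1 * x.2` is injective on `S`: `gcd (s t) V = s` for `s ∣ V`, `(t, V) = 1` (`Nat.Coprime.gcd_mul_right_cancel`, `Nat.gcd_eq_left`), and then `t = s t/s` (`s ≥ 1` as `s ∣ V`, `V ≥ 1`). The image is contained in `Icc 1 M`; `Finset.sum_image`, `Finset.sum_le_sum_of_subset_of_nonneg`.
`smq`: write the double sum as the sum over the pairs `(s, t)` with `s ∣ V`, `t ∈ cp V D`, `s t ≤ exp ρ`, each term is `≤ XX N P (s t)`; `inj_sum` with `M = ⌊exp ρ⌋₊`; then for `1 ≤ r ≤ M`: `XX N P r = 0` or (`¬ P ∣ r`) `XR N r = ∑_{χ ∈ pc r} PM N χ ≤ r N exp(-4ρ) ≤ exp(ρ) N exp(-4ρ)`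
(`BVL.bv_psi_card`: `|pc r| ≤ r`; this computation is in `psx_small`, `Pool/Agent/H17/BX/Psx.lean`); `M ≤ exp ρ` terms: total `≤ exp(2ρ) N exp(-4ρ)`.
-/

open Finset H69LB

namespace BVQ

theorem inj_sum {V M : ℕ} (hV : 1 ≤ V) {F : ℕ → ℝ} (hF : ∀ r, 0 ≤ F r) (S : Finset (ℕ × ℕ))
    (hS : ∀ x ∈ S, x.1 ∣ V ∧ Nat.Coprime x.2 V ∧ 1 ≤ x.2 ∧ x.1 * x.2 ≤ M) :
    ∑ x ∈ S, F (x.1 * x.2) ≤ ∑ r ∈ Icc 1 M, F r := by
  classical
  have hinj : Set.InjOn (fun x : ℕ × ℕ => x.1 * x.2) (S : Set (ℕ × ℕ)) := by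
    intro x hx y hy hxy
    have hxy' : x.1 * x.2 = y.1 * y.2 := hxy
    obtain ⟨hx1, hx2, hx3, -⟩ := hS x hx
    obtain ⟨hy1, hy2, hy3, -⟩ := hS y hy
    have gx : Nat.gcd (x.1 * x.2) V = x.1 := by
      rw [Nat.Coprime.gcd_mul_right_cancel x.1 hx2]
      exact Nat.gcd_eq_left hx1
    have gy : Nat.gcd (y.1 * y.2) V = y.1 := by
      rw [Nat.Coprime.gcd_mul_right_cancel y.1 hy2]
      exact Nat.gcd_eq_left hy1
    have h1 : x.1 = y.1 := by rw [← gx, ← gy, hxy']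
    have h0 : 0 < x.1 := Nat.pos_of_dvd_of_pos hx1 (by omega)
    have h2 : x.2 = y.2 := by
      rw [← h1] at hxy'
      exact Nat.eq_of_mul_eq_mul_left h0 hxy'
    exact Prod.ext h1 h2
  have h1 : ∑ r ∈ S.image (fun x : ℕ × ℕ => x.1 * x.2), F r = ∑ x ∈ S, F (x.1 * x.2) :=
    Finset.sum_image hinj
  rw [← h1]
  apply Finset.sum_le_sum_of_subset_of_nonneg
  · intro r hr
    obtain ⟨x, hx, rfl⟩ := Finset.mem_image.mp hr
    obtain ⟨hx1, hx2, hx3, hx4⟩ := hS x hx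
    have h0 : 0 < x.1 := Nat.pos_of_dvd_of_pos hx1 (by omega)
    rw [Finset.mem_Icc]
    exact ⟨Nat.mul_pos h0 hx3, hx4⟩
  · intro r _ _
    exact hF r

theorem smq {N P V D : ℕ} (hV : 1 ≤ V)
    (hS : ∀ q : ℕ, 1 ≤ q → (q : ℝ) ≤ Real.exp (BVX.rh N) → ¬ P ∣ q → ∀ χ ∈ pc q, BVL.PM N χ ≤ N * Real.exp (-(4 * BVX.rh N)))
    {g : ℕ → ℕ → ℝ} (hg : ∀ s t, 0 ≤ g s t) (hg1 : ∀ s t, g s t ≤ 1) :
    ∑ t ∈ cp V D, ∑ s ∈ V.divisors, (if ((s * t : ℕ) : ℝ) ≤ Real.exp (BVX.rh N) then g s t * XX N P (s * t) else 0) ≤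
      N * Real.exp (-(2 * BVX.rh N)) := by
  classical
  obtain ⟨M, hM⟩ : ∃ M, M = Real.exp (BVX.rh N) := ⟨_, rfl⟩
  have hM0 : 0 < M := by rw [hM]; exact Real.exp_pos _
  have hq : 0 ≤ (N : ℝ) * Real.exp (-(4 * BVX.rh N)) := mul_nonneg (Nat.cast_nonneg _) (Real.exp_pos _).le
  rw [← hM] at hS ⊢
  have hX : ∀ r : ℕ, 1 ≤ r → (r : ℝ) ≤ M → XX N P r ≤ M * (N * Real.exp (-(4 * BVX.rh N))) := by
    intro r hr1 hr2
    unfold XX
    split_ifs with hP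
    · positivity
    · calc BVL.XR N r ≤ ∑ χ ∈ pc r, (N * Real.exp (-(4 * BVX.rh N))) := Finset.sum_le_sum (hS r hr1 hr2 hP)
        _ = ((pc r).card : ℝ) * (N * Real.exp (-(4 * BVX.rh N))) := by rw [Finset.sum_const, nsmul_eq_mul]
        _ ≤ M * (N * Real.exp (-(4 * BVX.rh N))) := by
            apply mul_le_mul_of_nonneg_right _ hq
            have hc : (pc r).card ≤ r := by
              have : NeZero r := ⟨by omega⟩
              calc (pc r).card ≤ (univ : Finset (DirichletCharacter ℂ r)).card := card_le_card (subset_univ _)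
                _ = Nat.card (DirichletCharacter ℂ r) := by rw [card_univ, Nat.card_eq_fintype_card]
                _ = r.totient := DirichletCharacter.card_eq_totient_of_hasEnoughRootsOfUnity ℂ r
                _ ≤ r := Nat.totient_le r
            have : ((pc r).card : ℝ) ≤ r := by exact_mod_cast hc
            linarith
  have h1 : ∑ t ∈ cp V D, ∑ s ∈ V.divisors, (if ((s * t : ℕ) : ℝ) ≤ M then g s t * XX N P (s * t) else 0) ≤
      ∑ x ∈ (V.divisors ×ˢ cp V D).filter (fun x => ((x.1 * x.2 : ℕ) : ℝ) ≤ M), XX N P (x.1 * x.2) := by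
    rw [Finset.sum_comm, ← Finset.sum_product', Finset.sum_filter]
    apply Finset.sum_le_sum
    intro x _
    split_ifs with h
    · exact mul_le_of_le_one_left (XX_nonneg N P _) (hg1 _ _)
    · exact le_rfl
  have h2 : ∑ x ∈ (V.divisors ×ˢ cp V D).filter (fun x => ((x.1 * x.2 : ℕ) : ℝ) ≤ M), XX N P (x.1 * x.2) ≤
      ∑ r ∈ Icc 1 ⌊M⌋₊, XX N P r := by
    apply inj_sum hV (XX_nonneg N P)
    intro x hx
    rw [Finset.mem_filter, Finset.mem_product, Nat.mem_divisors, mem_cp] at hx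
    obtain ⟨⟨⟨h1, -⟩, ⟨h2, -⟩, h3⟩, h4⟩ := hx
    exact ⟨h1, h3, h2, Nat.le_floor h4⟩
  have h3 : ∑ r ∈ Icc 1 ⌊M⌋₊, XX N P r ≤ ∑ r ∈ Icc 1 ⌊M⌋₊, M * (N * Real.exp (-(4 * BVX.rh N))) := by
    apply Finset.sum_le_sum
    intro r hr
    rw [Finset.mem_Icc] at hr
    exact hX r hr.1 ((Nat.le_floor_iff hM0.le).mp hr.2)
  rw [Finset.sum_const, Nat.card_Icc, Nat.add_sub_cancel, nsmul_eq_mul] at h3
  have h4 : (⌊M⌋₊ : ℝ) ≤ M := Nat.floor_le hM0.le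
  calc _ ≤ (⌊M⌋₊ : ℝ) * (M * (N * Real.exp (-(4 * BVX.rh N)))) := h1.trans (h2.trans h3)
    _ ≤ M * (M * (N * Real.exp (-(4 * BVX.rh N)))) := mul_le_mul_of_nonneg_right h4 (by positivity)
    _ = N * (M * M * Real.exp (-(4 * BVX.rh N))) := by ring
    _ = _ := by
        rw [hM, ← Real.exp_add, ← Real.exp_add]
        congr 2
        ring

end BVQ
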