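import Pool.Agent.H68.BQ.Dvq
import Pool.Agent.H68.BQ.Ijq

/-!
# ROW Lbq: the conductors `s t` with small `t` (so `s` has many prime factors in `Z`)

PROOF. `lbq_tp`: let `T = s.primeFactors ∩ Z ⊆ Z`. By `dv_mem` (with `A = T`) `s ∣ md W T = W ∏_{p ∈ T} p`, so `s ≤ W l^|T|` (`Finset.prod_le_pow_card`-type: `∏ (p : ℝ) ≤ l^|T|`), `|T| = tp Z s`. With `W exp B ≤ s`: `exp B ≤ l^(tp Z s)`, take logarithms.
`lbq`: if `t ≤ exp(ρ/4)` and `exp ρ < s t` then `s > exp(3ρ/4) ≥ W exp(ρ/4)`, so `ρ/4 ≤ tp Z s · log l` and `(1 - δ)^(tp Z s) ≤ exp(-δ tp Z s) ≤ exp(-(δ ρ/(4 log l)))` (`Real.one_sub_le_exp_neg`). `1/φ(t) ≤ 1`, `XX ≤ XR` (`XX_le`). The pairs satisfy `s t ≤ md W Z exp(ρ/4) ≤ M`; `inj_sum`.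
-/

open Finset H69LB

namespace BVQ

theorem lbq_tp {P W : ℕ} {Z : Finset ℕ} {l : ℝ} (h : Pl P W Z l) (hl : 1 < l) {s : ℕ} (hs : s ∣ md W Z) {B : ℝ}
    (hB : (W : ℝ) * Real.exp B ≤ s) : B ≤ tp Z s * Real.log l := by
  have hT : s.primeFactors ∩ Z ⊆ Z := Finset.inter_subset_right
  have hpos := h.md_pos
  have h1 : s ∈ (md W (s.primeFactors ∩ Z)).divisors :=
    (dv_mem h hT s).2 ⟨Nat.mem_divisors.2 ⟨hs, by omega⟩, Finset.Subset.refl _⟩
  have h2 : s ≤ md W (s.primeFactors ∩ Z) := Nat.divisor_le h1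
  have h3 : (s : ℝ) ≤ (W : ℝ) * l ^ tp Z s := by
    refine (Nat.cast_le.2 h2).trans ?_
    unfold md tp
    rw [Nat.cast_mul, Nat.cast_prod]
    refine mul_le_mul_of_nonneg_left ?_ (Nat.cast_nonneg _)
    rw [← Finset.prod_const]
    exact Finset.prod_le_prod (fun i _ => Nat.cast_nonneg _) (fun i hi => h.le i (hT hi))
  have hW : (0 : ℝ) < W := by
    have := h.W1
    exact_mod_cast this
  have h4 : Real.exp B ≤ l ^ tp Z s := le_of_mul_le_mul_left (hB.trans h3) hW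
  have h5 := Real.log_le_log (Real.exp_pos B) h4
  rwa [Real.log_exp, Real.log_pow] at h5

theorem lbq {N P W D M : ℕ} {Z : Finset ℕ} {l δ ρ : ℝ} (h : Pl P W Z l) (hl : 1 < l) (h0 : 0 ≤ δ) (h1 : δ ≤ 1) (hρ : 0 ≤ ρ)
    (hW : (W : ℝ) ≤ Real.exp (ρ / 2)) (hM : (md W Z : ℝ) * Real.exp (ρ / 4) ≤ M) :
    ∑ t ∈ cp (md W Z) D, ∑ s ∈ (md W Z).divisors,
      (if (t : ℝ) ≤ Real.exp (ρ / 4) ∧ Real.exp ρ < ((s * t : ℕ) : ℝ) then (1 - δ) ^ tp Z s / (Nat.totient t : ℝ) * XX N P (s * t) else 0) ≤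
      Real.exp (-(δ * ρ / (4 * Real.log l))) * ∑ r ∈ Icc 1 M, BVL.XR N r := by
  classical
  have hlog : 0 < Real.log l := Real.log_pos hl
  have hpos := h.md_pos
  rw [Finset.sum_comm, ← Finset.sum_product']
  have h2 : ∀ x ∈ (md W Z).divisors ×ˢ cp (md W Z) D,
      (if ((x.2 : ℕ) : ℝ) ≤ Real.exp (ρ / 4) ∧ Real.exp ρ < ((x.1 * x.2 : ℕ) : ℝ) then
        (1 - δ) ^ tp Z x.1 / (Nat.totient x.2 : ℝ) * XX N P (x.1 * x.2) else 0) ≤
      (if ((x.2 : ℕ) : ℝ) ≤ Real.exp (ρ / 4) ∧ Real.exp ρ < ((x.1 * x.2 : ℕ) : ℝ) then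
        Real.exp (-(δ * ρ / (4 * Real.log l))) * BVL.XR N (x.1 * x.2) else 0) := by
    intro x hx
    obtain ⟨hx1, hx2⟩ := Finset.mem_product.1 hx
    rw [mem_cp] at hx2
    have hs : x.1 ∣ md W Z := Nat.dvd_of_mem_divisors hx1
    split_ifs with hc
    · obtain ⟨hc1, hc2⟩ := hc
      have hx0 : (0 : ℝ) ≤ (x.1 : ℝ) := Nat.cast_nonneg _
      have ha : (W : ℝ) * Real.exp (ρ / 4) ≤ x.1 := by
        have e1 : Real.exp ρ = Real.exp (ρ / 2) * Real.exp (ρ / 4) * Real.exp (ρ / 4) := by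
          rw [← Real.exp_add, ← Real.exp_add]
          congr 1
          ring
        have e2 : Real.exp ρ ≤ (x.1 : ℝ) * Real.exp (ρ / 4) := by
          refine hc2.le.trans ?_
          rw [Nat.cast_mul]
          exact mul_le_mul_of_nonneg_left hc1 hx0
        rw [e1] at e2
        have e3 := le_of_mul_le_mul_right e2 (Real.exp_pos _)
        exact (mul_le_mul_of_nonneg_right hW (Real.exp_pos _).le).trans e3
      have hb := lbq_tp h hl hs ha
      have hd : (1 - δ) ^ tp Z x.1 ≤ Real.exp (-(δ * ρ / (4 * Real.log l))) := by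
        have d1 : (1 - δ) ^ tp Z x.1 ≤ Real.exp (-δ) ^ tp Z x.1 :=
          pow_le_pow_left₀ (by linarith) (Real.one_sub_le_exp_neg δ) _
        refine d1.trans ?_
        rw [← Real.exp_nat_mul]
        apply Real.exp_le_exp.2
        have d2 : ρ / (4 * Real.log l) ≤ tp Z x.1 := by
          rw [div_le_iff₀ (by positivity)]
          linarith
        have d3 := mul_le_mul_of_nonneg_left d2 h0
        have d4 : δ * ρ / (4 * Real.log l) = δ * (ρ / (4 * Real.log l)) := by ring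
        rw [d4]
        linarith
      have ht : (1 : ℝ) ≤ (Nat.totient x.2 : ℝ) := by
        exact_mod_cast Nat.totient_pos.2 (by omega)
      have hp : 0 ≤ (1 - δ) ^ tp Z x.1 := pow_nonneg (by linarith) _
      have he : (1 - δ) ^ tp Z x.1 / (Nat.totient x.2 : ℝ) ≤
          Real.exp (-(δ * ρ / (4 * Real.log l))) :=
        (div_le_self hp ht).trans hd
      exact mul_le_mul he (XX_le N P _) (XX_nonneg N P _) (Real.exp_pos _).le
    · exact le_rfl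
  refine (Finset.sum_le_sum h2).trans ?_
  rw [← Finset.sum_filter, ← Finset.mul_sum]
  refine mul_le_mul_of_nonneg_left ?_ (Real.exp_pos _).le
  refine inj_sum hpos (fun r => BVL.XR_nonneg N r) _ ?_
  intro x hx
  obtain ⟨hx1, hc1, hc2⟩ := Finset.mem_filter.1 hx
  obtain ⟨hx1, hx2⟩ := Finset.mem_product.1 hx1
  rw [mem_cp] at hx2
  have hs : x.1 ∣ md W Z := Nat.dvd_of_mem_divisors hx1
  refine ⟨hs, hx2.2, hx2.1.1, ?_⟩
  have hle : x.1 ≤ md W Z := Nat.le_of_dvd hpos hs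
  have h3 : ((x.1 * x.2 : ℕ) : ℝ) ≤ (M : ℝ) := by
    refine le_trans ?_ hM
    rw [Nat.cast_mul]
    exact mul_le_mul (Nat.cast_le.2 hle) hc1 (Nat.cast_nonneg _) (Nat.cast_nonneg _)
  exact_mod_cast h3

end BVQ
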