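import Pool.Agent.H68.BQ.Dvq
import Pool.Agent.H17.BV.Main

/-!
# ROW Pav: the average over the random modulus

PROOF. `t1q`: `BVL.bv_psi_T1` (`Pool/Agent/H17/BV/Main.lean`) with `C = 1`, `R = D`, `X t = if (t, V) = 1 then Y t else 0`: for `d ∈ cp V D` all divisors `t` of `d` are prime to `V`, the other `d` only add non-negative terms on the left, and on the right the terms with `(t, V) ≠ 1` vanish.
`pav`: for `A ⊆ Z` and `d ∈ cp (md W Z) D`: `(md W A, d) = 1`, `φ(md W A * d) = φ(md W A) φ(d)` (`Nat.totient_mul`), so `φ(md W A)` times the summand is `(1/φ(d)) ∑_{r ∣ md W A * d} XX N P r = (1/φ(d)) ∑_{t ∣ d} ∑_{s ∣ md W A} XX N P (s t)` (`dv_split`). Average over `A` (exchange the sums, `dv_avg` with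
`f s = XX N P (s t)`): `∑_{d} (1/φ(d)) ∑_{t ∣ d} Y t`, `Y t = ∑_{s ∣ md W Z} (1 - δ)^(tp Z s) XX N P (s t) ≥ 0` (`0 ≤ 1 - δ`), and `t1q`.
-/

open Finset H69LB

namespace BVQ

theorem t1q {V D : ℕ} {Y : ℕ → ℝ} (hY : ∀ t, 0 ≤ Y t) :
    ∑ d ∈ cp V D, 1 / (Nat.totient d : ℝ) * ∑ t ∈ d.divisors, Y t ≤
      (∑ m ∈ Icc 1 D, 1 / (Nat.totient m : ℝ)) * ∑ t ∈ cp V D, 1 / (Nat.totient t : ℝ) * Y t := by
  set X : ℕ → ℝ := fun t ↦ if Nat.Coprime t V then Y t else 0 with hX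
  have hX0 : ∀ t, 0 ≤ X t := by
    intro t
    simp only [hX]
    split_ifs
    · exact hY t
    · exact le_rfl
  have h := BVL.bv_psi_T1 (C := 1) le_rfl D X hX0
  simp only [one_pow] at h
  have h1 : ∑ d ∈ cp V D, 1 / (Nat.totient d : ℝ) * ∑ t ∈ d.divisors, Y t ≤
      ∑ q ∈ Icc 1 D, 1 / (Nat.totient q : ℝ) * ∑ r ∈ q.divisors, X r := by
    have h2 : ∑ d ∈ cp V D, 1 / (Nat.totient d : ℝ) * ∑ t ∈ d.divisors, Y t =
        ∑ d ∈ cp V D, 1 / (Nat.totient d : ℝ) * ∑ t ∈ d.divisors, X t := by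
      refine Finset.sum_congr rfl fun d hd ↦ ?_
      congr 1
      refine Finset.sum_congr rfl fun t ht ↦ ?_
      have hc : Nat.Coprime t V :=
        Nat.Coprime.coprime_dvd_left (Nat.dvd_of_mem_divisors ht) (mem_cp.mp hd).2
      simp only [hX, if_pos hc]
    rw [h2]
    refine Finset.sum_le_sum_of_subset_of_nonneg (Finset.filter_subset _ _) ?_
    intro q _ _
    exact mul_nonneg (by positivity) (Finset.sum_nonneg fun r _ ↦ hX0 r)
  have h3 : ∑ r ∈ Icc 1 D, 1 / (Nat.totient r : ℝ) * X r =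
      ∑ t ∈ cp V D, 1 / (Nat.totient t : ℝ) * Y t := by
    rw [cp, Finset.sum_filter]
    refine Finset.sum_congr rfl fun r _ ↦ ?_
    simp only [hX]
    split_ifs
    · rfl
    · rw [mul_zero]
  rw [h3] at h
  exact h1.trans h

theorem pav {N P W D : ℕ} {Z : Finset ℕ} {l δ : ℝ} (h : Pl P W Z l) (h1 : δ ≤ 1) :
    ∑ A ∈ Z.powerset, mu δ Z A * ((Nat.totient (md W A) : ℝ) *
      ∑ d ∈ cp (md W Z) D, (∑ r ∈ (md W A * d).divisors, XX N P r) / (Nat.totient (md W A * d) : ℝ)) ≤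
    (∑ m ∈ Icc 1 D, 1 / (Nat.totient m : ℝ)) *
      ∑ t ∈ cp (md W Z) D, ∑ s ∈ (md W Z).divisors, (1 - δ) ^ tp Z s / (Nat.totient t : ℝ) * XX N P (s * t) := by
  set Y : ℕ → ℝ := fun t ↦ ∑ s ∈ (md W Z).divisors, (1 - δ) ^ tp Z s * XX N P (s * t) with hYd
  have hY : ∀ t, 0 ≤ Y t := fun t ↦ Finset.sum_nonneg fun s _ ↦
    mul_nonneg (pow_nonneg (by linarith) _) (XX_nonneg _ _ _)
  have e1 : ∑ A ∈ Z.powerset, mu δ Z A * ((Nat.totient (md W A) : ℝ) *
      ∑ d ∈ cp (md W Z) D, (∑ r ∈ (md W A * d).divisors, XX N P r) / (Nat.totient (md W A * d) : ℝ)) =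
      ∑ d ∈ cp (md W Z) D, 1 / (Nat.totient d : ℝ) * ∑ t ∈ d.divisors, Y t := by
    have e2 : ∀ A ∈ Z.powerset, mu δ Z A * ((Nat.totient (md W A) : ℝ) *
      ∑ d ∈ cp (md W Z) D, (∑ r ∈ (md W A * d).divisors, XX N P r) / (Nat.totient (md W A * d) : ℝ)) =
      ∑ d ∈ cp (md W Z) D, ∑ t ∈ d.divisors, 1 / (Nat.totient d : ℝ) *
        (mu δ Z A * ∑ s ∈ (md W A).divisors, XX N P (s * t)) := by
      intro A hA
      have hAZ : A ⊆ Z := Finset.mem_powerset.mp hA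
      have hpos : 1 ≤ md W A := (h.mono hAZ).md_pos
      rw [Finset.mul_sum, Finset.mul_sum]
      refine Finset.sum_congr rfl fun d hd ↦ ?_
      obtain ⟨⟨hd1, -⟩, hdc⟩ := mem_cp.mp hd
      have hc : Nat.Coprime (md W A) d :=
        Nat.Coprime.coprime_dvd_left (md_dvd hAZ) hdc.symm
      rw [dv_split hpos hd1 hc, Nat.totient_mul hc]
      have hφ : (Nat.totient (md W A) : ℝ) ≠ 0 := by
        have := Nat.totient_pos.mpr hpos
        positivity
      have hφd : (Nat.totient d : ℝ) ≠ 0 := by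
        have := Nat.totient_pos.mpr hd1
        positivity
      rw [← Finset.mul_sum, ← Finset.mul_sum]
      push_cast
      field_simp
    rw [Finset.sum_congr rfl e2, Finset.sum_comm]
    refine Finset.sum_congr rfl fun d _ ↦ ?_
    rw [Finset.sum_comm, Finset.mul_sum]
    refine Finset.sum_congr rfl fun t _ ↦ ?_
    rw [← Finset.mul_sum, dv_avg h δ (fun s ↦ XX N P (s * t))]
  rw [e1]
  refine (t1q hY).trans (le_of_eq ?_)
  congr 1
  refine Finset.sum_congr rfl fun t _ ↦ ?_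
  rw [hYd, Finset.mul_sum]
  refine Finset.sum_congr rfl fun s _ ↦ ?_
  ring

end BVQ
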