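import Pool.Agent.H68.BQ.Psq
import Pool.Agent.H17.BV.Pii
import Pool.Agent.H17.BV.Tht

/-!
# ROW Piq: the theorem for `π`

PROOF. `psq` gives `P`, `A`, `E`. For `d ∈ cp (P V) D` and `(a, md W A d) = 1`, `y ≤ N`: `|θ(y; md W A d, a) - y/φ| ≤ E d + 2 √N log N =: E1 d` (`BVL.bv_theta_diff` in `Pool/Agent/H17/BV/Tht.lean`), then `BVL.bv_pi_one` (`Pool/Agent/H17/BV/Pii.lean`): `|π - Li y/φ| ≤ 2 E1 d + 4 =: E' d`. The sum: `φ(md W A) ∑_d E' d ≤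
2 N exp(-2 ρ^(9/10)) + N^(1/70) N^(2/5) (4 √N log N + 4) ≤ N exp(-ρ^(9/10))` for large `N` (`log N = ρ^20`; compare `Thx_grow` in `Pool/Agent/H17/BX/Thx.lean`).
-/

open Finset H69LB

namespace BVQ

open BVL in
theorem Piq_grow : ∃ N0 : ℕ, ∀ N : ℕ, N0 ≤ N →
    2 * Real.exp (-(2 * BVX.rh N ^ (9 / 10 : ℝ))) ≤ 1 / 2 * Real.exp (-(BVX.rh N ^ (9 / 10 : ℝ))) ∧
    (N : ℝ) ^ (1 / 70 : ℝ) * ((N : ℝ) ^ (2 / 5 : ℝ) * (4 * Real.sqrt N * Real.log N + 4)) ≤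
      N * (1 / 2 * Real.exp (-(BVX.rh N ^ (9 / 10 : ℝ)))) := by
  obtain ⟨N1, h1⟩ := bv_theta_grow 16 1 (show (0 : ℝ) < 1 / 70 by norm_num)
  have h2 := ((tendsto_rpow_atTop (show (0 : ℝ) < 9 / 10 by norm_num)).comp BVX.rh_tendsto).eventually_ge_atTop
    (Real.log 4)
  have h3 := BVX.rh_tendsto.eventually_ge_atTop 2
  obtain ⟨N2, hN2⟩ := Filter.eventually_atTop.mp (h2.and h3)
  refine ⟨max (max N1 N2) 1, fun N hN => ?_⟩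
  have g1 := h1 N (by omega)
  obtain ⟨g2, g3⟩ := hN2 N (by omega)
  simp only [Function.comp] at g2
  have hN1 : 1 ≤ N := by omega
  have hNr : (1 : ℝ) ≤ N := by exact_mod_cast hN1
  have hN0 : (0 : ℝ) < N := by linarith
  obtain ⟨t, ht⟩ : ∃ t, t = BVX.rh N ^ (9 / 10 : ℝ) := ⟨_, rfl⟩
  rw [← ht] at g2 ⊢
  have hrh0 : 0 < BVX.rh N := by linarith
  constructor
  · have h4 : Real.exp (-(2 * t)) = Real.exp (-t) * Real.exp (-t) := by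
      rw [← Real.exp_add]; congr 1; ring
    have h5 : Real.exp (-t) ≤ 1 / 4 := by
      calc Real.exp (-t) ≤ Real.exp (-Real.log 4) := Real.exp_le_exp.2 (by linarith)
        _ = 1 / 4 := by rw [Real.exp_neg, Real.exp_log (by norm_num), one_div]
    rw [h4]
    nlinarith [Real.exp_pos (-t)]
  · have hL1 : 1 ≤ Real.log N := by
      rw [← BVX.rh_pow N]
      exact one_le_pow₀ (by linarith)
    have ht1 : t ≤ 1 / 70 * Real.log N := by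
      have h6 : t ≤ BVX.rh N := by
        rw [ht]
        calc BVX.rh N ^ (9 / 10 : ℝ) ≤ BVX.rh N ^ (1 : ℝ) :=
              Real.rpow_le_rpow_of_exponent_le (by linarith) (by norm_num)
          _ = BVX.rh N := Real.rpow_one _
      rw [← BVX.rh_pow N]
      have h7 : (2 : ℝ) ^ 19 ≤ BVX.rh N ^ 19 := pow_le_pow_left₀ (by norm_num) g3 19
      have h8 : BVX.rh N ^ 20 = BVX.rh N * BVX.rh N ^ 19 := by ring
      rw [h8]
      nlinarith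
    have ht2 : (N : ℝ) ^ (-(1 / 70) : ℝ) ≤ Real.exp (-t) := by
      rw [Real.rpow_def_of_pos hN0]
      exact Real.exp_le_exp.2 (by linarith)
    rw [pow_one] at g1
    have hs1 : (1 : ℝ) ≤ Real.sqrt N := by rw [Real.one_le_sqrt]; exact hNr
    have h9 : 4 * Real.sqrt N * Real.log N + 4 ≤ Real.sqrt N * (1 / 2 * (N : ℝ) ^ (1 / 70 : ℝ)) := by
      have : 1 ≤ Real.sqrt N * Real.log N := by nlinarith
      nlinarith
    have e1 : (N : ℝ) ^ (1 / 70 : ℝ) * ((N : ℝ) ^ (2 / 5 : ℝ) * (Real.sqrt N * (1 / 2 * (N : ℝ) ^ (1 / 70 : ℝ)))) =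
        1 / 2 * (N : ℝ) ^ (13 / 14 : ℝ) := by
      rw [Real.sqrt_eq_rpow]
      have : (N : ℝ) ^ (1 / 70 : ℝ) * (N : ℝ) ^ (2 / 5 : ℝ) * (N : ℝ) ^ (1 / 2 : ℝ) * (N : ℝ) ^ (1 / 70 : ℝ) =
          (N : ℝ) ^ (13 / 14 : ℝ) := by
        rw [← Real.rpow_add hN0, ← Real.rpow_add hN0, ← Real.rpow_add hN0]
        norm_num
      rw [← this]
      ring
    have e2 : (N : ℝ) ^ (13 / 14 : ℝ) ≤ N * (N : ℝ) ^ (-(1 / 70) : ℝ) := by
      have : (N : ℝ) * (N : ℝ) ^ (-(1 / 70) : ℝ) = (N : ℝ) ^ (69 / 70 : ℝ) := by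
        rw [← Real.rpow_one_add' hN0.le (by norm_num)]
        norm_num
      rw [this]
      exact Real.rpow_le_rpow_of_exponent_le hNr (by norm_num)
    calc (N : ℝ) ^ (1 / 70 : ℝ) * ((N : ℝ) ^ (2 / 5 : ℝ) * (4 * Real.sqrt N * Real.log N + 4))
        ≤ (N : ℝ) ^ (1 / 70 : ℝ) * ((N : ℝ) ^ (2 / 5 : ℝ) * (Real.sqrt N * (1 / 2 * (N : ℝ) ^ (1 / 70 : ℝ)))) := by
          gcongr
      _ = 1 / 2 * (N : ℝ) ^ (13 / 14 : ℝ) := e1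
      _ ≤ 1 / 2 * (N * (N : ℝ) ^ (-(1 / 70) : ℝ)) := by linarith
      _ ≤ 1 / 2 * (N * Real.exp (-t)) := by
          have := mul_le_mul_of_nonneg_left ht2 hN0.le
          linarith
      _ = N * (1 / 2 * Real.exp (-t)) := by ring

theorem piq : ∃ N0 : ℕ, ∀ N : ℕ, N0 ≤ N → ∃ P : ℕ, P.Prime ∧ (P : ℝ) ≤ Real.exp (BVX.rh N) ∧ ∀ (W : ℕ) (Z : Finset ℕ),
    Pl P W Z (Real.log N) → (W : ℝ) ≤ Real.exp (BVX.rh N / 2) → (md W Z : ℝ) ≤ (N : ℝ) ^ (1 / 70 : ℝ) →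
    ∃ A ⊆ Z, ∑ p ∈ Z \ A, 1 / (p : ℝ) ≤ BVX.rh N ^ (-(1 / 25) : ℝ) ∧ ∃ E : ℕ → ℝ, (∀ d, 0 ≤ E d) ∧
    (∀ d ∈ cp (P * md W Z) ⌊(N : ℝ) ^ (2 / 5 : ℝ)⌋₊, ∀ a : ℕ, Nat.Coprime a (md W A * d) → ∀ y : ℕ, 2 ≤ y → y ≤ N →
      |((((Icc 1 y).filter (fun p => p.Prime ∧ p ≡ a [MOD md W A * d])).card : ℕ) : ℝ) -
        Pool.Agent.H17.ZB.Li y / (Nat.totient (md W A * d) : ℝ)| ≤ E d) ∧
    (Nat.totient (md W A) : ℝ) * ∑ d ∈ cp (P * md W Z) ⌊(N : ℝ) ^ (2 / 5 : ℝ)⌋₊, E d ≤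
      N * Real.exp (-(BVX.rh N ^ (9 / 10 : ℝ))) := by
  obtain ⟨N1, h1⟩ := psq
  obtain ⟨N2, h2⟩ := Piq_grow
  refine ⟨max (max N1 N2) 2, fun N hN => ?_⟩
  obtain ⟨P, hP, hPs, hmain⟩ := h1 N (by omega)
  obtain ⟨hg1, hg2⟩ := h2 N (by omega)
  have hN1 : 1 ≤ N := by omega
  have hNr : (1 : ℝ) ≤ N := by exact_mod_cast hN1
  have hl0 : 0 ≤ Real.log (N : ℝ) := Real.log_natCast_nonneg N
  refine ⟨P, hP, hPs, fun W Z hPl hW hV => ?_⟩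
  obtain ⟨A, hA, hsum, E, hE0, hE1, hE2⟩ := hmain W Z hPl hW hV
  have hVpos : 1 ≤ md W Z := hPl.md_pos
  have hApos : 1 ≤ md W A := (hPl.mono hA).md_pos
  have hmono : ∀ d, 0 ≤ E d + 2 * Real.sqrt N * Real.log N := by
    intro d
    have := hE0 d
    positivity
  refine ⟨A, hA, hsum, fun d => 2 * (E d + 2 * Real.sqrt N * Real.log N) + 4, ?_, ?_, ?_⟩
  · intro d
    have := hmono d
    linarith
  · intro d hd a ha y hy hyN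
    have hd1 : 1 ≤ d := (mem_cp.1 hd).1.1
    refine BVL.bv_pi_one (Nat.mul_pos hApos hd1) hy (hmono d) fun n hn => ?_
    have hnN : n ≤ N := hn.trans hyN
    have h3 := hE1 d hd a ha n hnN
    have h4 := BVL.bv_theta_diff (md W A * d) a n N hnN hN1
    have h5 := abs_sub_le (∑ p ∈ (Icc 1 n).filter (fun p => p.Prime ∧ p ≡ a [MOD md W A * d]), Real.log p)
      (∑ m ∈ (Icc 1 n).filter (fun m => m ≡ a [MOD md W A * d]), ArithmeticFunction.vonMangoldt m)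
      (n / (Nat.totient (md W A * d) : ℝ))
    rw [abs_sub_comm] at h4
    linarith
  · have hφ0 : (0 : ℝ) ≤ (Nat.totient (md W A) : ℝ) := Nat.cast_nonneg _
    have hφ : (Nat.totient (md W A) : ℝ) ≤ (N : ℝ) ^ (1 / 70 : ℝ) := by
      refine le_trans ?_ hV
      have : Nat.totient (md W A) ≤ md W Z :=
        (Nat.totient_le _).trans (Nat.le_of_dvd hVpos (md_dvd hA))
      exact_mod_cast this
    have hcard : (((cp (P * md W Z) ⌊(N : ℝ) ^ (2 / 5 : ℝ)⌋₊).card : ℕ) : ℝ) ≤ (N : ℝ) ^ (2 / 5 : ℝ) := by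
      refine le_trans ?_ (Nat.floor_le (by positivity : (0 : ℝ) ≤ (N : ℝ) ^ (2 / 5 : ℝ)))
      have : (cp (P * md W Z) ⌊(N : ℝ) ^ (2 / 5 : ℝ)⌋₊).card ≤ ⌊(N : ℝ) ^ (2 / 5 : ℝ)⌋₊ := by
        unfold cp
        refine (Finset.card_filter_le _ _).trans ?_
        rw [Nat.card_Icc, Nat.add_sub_cancel]
      exact_mod_cast this
    have hs : ∑ d ∈ cp (P * md W Z) ⌊(N : ℝ) ^ (2 / 5 : ℝ)⌋₊, (2 * (E d + 2 * Real.sqrt N * Real.log N) + 4) =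
        2 * ∑ d ∈ cp (P * md W Z) ⌊(N : ℝ) ^ (2 / 5 : ℝ)⌋₊, E d +
        (cp (P * md W Z) ⌊(N : ℝ) ^ (2 / 5 : ℝ)⌋₊).card * (4 * Real.sqrt N * Real.log N + 4) := by
      rw [Finset.mul_sum, ← nsmul_eq_mul, ← Finset.sum_const, ← Finset.sum_add_distrib]
      refine Finset.sum_congr rfl fun d _ => ?_
      ring
    rw [hs]
    have hpos : 0 ≤ 4 * Real.sqrt N * Real.log N + 4 := by positivity
    calc (Nat.totient (md W A) : ℝ) * (2 * ∑ d ∈ cp (P * md W Z) ⌊(N : ℝ) ^ (2 / 5 : ℝ)⌋₊, E d +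
          (cp (P * md W Z) ⌊(N : ℝ) ^ (2 / 5 : ℝ)⌋₊).card * (4 * Real.sqrt N * Real.log N + 4))
        = 2 * ((Nat.totient (md W A) : ℝ) * ∑ d ∈ cp (P * md W Z) ⌊(N : ℝ) ^ (2 / 5 : ℝ)⌋₊, E d) +
          (Nat.totient (md W A) : ℝ) * ((cp (P * md W Z) ⌊(N : ℝ) ^ (2 / 5 : ℝ)⌋₊).card *
            (4 * Real.sqrt N * Real.log N + 4)) := by ring
      _ ≤ 2 * (N * Real.exp (-(2 * BVX.rh N ^ (9 / 10 : ℝ)))) +
          (N : ℝ) ^ (1 / 70 : ℝ) * ((N : ℝ) ^ (2 / 5 : ℝ) * (4 * Real.sqrt N * Real.log N + 4)) := by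
          gcongr
      _ ≤ N * (1 / 2 * Real.exp (-(BVX.rh N ^ (9 / 10 : ℝ)))) +
          N * (1 / 2 * Real.exp (-(BVX.rh N ^ (9 / 10 : ℝ)))) := by
          have := mul_le_mul_of_nonneg_left hg1 (show (0 : ℝ) ≤ N by linarith)
          linarith
      _ = N * Real.exp (-(BVX.rh N ^ (9 / 10 : ℝ))) := by ring

end BVQ
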