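import Pool.Agent.H68.BQ.Lbq
import Pool.Agent.H68.BQ.Dyq
import Pool.Agent.H17.BX.Swx

/-!
# ROW Trq: the total of the three ranges

PROOF. `ρ = rh N`, `V = md W Z`, `D = ⌊N^(2/5)⌋₊`. `P` from `BVX.swx`. Every pair `(s, t)`, `t ∈ cp V D`, `s ∣ V` has `s t ≤ exp ρ`, or (`exp ρ < s t` and `t ≤ exp(ρ/4)`), or `exp(ρ/4) < t`; the weight `(1 - δ)^tp/φ(t)` is in `[0, 1]` (`φ(t) ≥ 1`), so the term (`≥ 0`) is at most the sum of the three terms
`[s t ≤ exp ρ] w XX + [t ≤ exp(ρ/4), exp ρ < s t] w XX + [exp(ρ/4) < t] (1/φ(t)) XR N (s t)` (`XX_le`). `smq` (with `g s t = (1 - δ)^(tp Z s)/φ(t)`): `N exp(-2ρ)`; `dyq`: `N exp(-ρ/8)`; `lbq` with `l = log N`, `M = ⌈V exp(ρ/4)⌉₊ ≤ N^(1/60)` (`V ≤ N^(1/70)`, `exp(ρ/4) + 1 ≤ N^(1/60 - 1/70)` for large `N`,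
`log N = ρ^20`) and `xsq`: `exp(-(δ ρ/(4 log log N))) C (log N)^7 N`.
With `δ = ρ^(-1/20)`, `log log N = 20 log ρ`: `δ ρ/(4 · 20 log ρ) = ρ^(19/20)/(80 log ρ) ≥ 4 ρ^(9/10)` for large `ρ`, and `C (log N)^7 = C ρ^140 ≤ exp(ρ^(9/10))/3`, `exp(-2ρ) ≤ exp(-3 ρ^(9/10))/3`, `exp(-ρ/8) ≤ exp(-3 ρ^(9/10))/3` for large `ρ`. Total `≤ N exp(-3 ρ^(9/10))`.
-/

open Finset H69LB

namespace BVQ

theorem Trq_ev (C : ℝ) : ∀ᶠ r : ℝ in Filter.atTop, 2 ≤ r ∧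
    Real.exp (-(2 * r)) + Real.exp (-(r / 8)) +
      Real.exp (-(r ^ (-(1 / 20) : ℝ) * r / (4 * Real.log (r ^ 20)))) * (C * (r ^ 20) ^ 7) ≤
    Real.exp (-(3 * r ^ (9 / 10 : ℝ))) := by
  have t1 : Filter.Tendsto (fun r : ℝ => r ^ (1 / 10 : ℝ)) Filter.atTop Filter.atTop :=
    tendsto_rpow_atTop (by norm_num)
  have t2 : Filter.Tendsto (fun r : ℝ => r ^ (9 / 10 : ℝ)) Filter.atTop Filter.atTop :=
    tendsto_rpow_atTop (by norm_num)
  have e1 : ∀ᶠ r : ℝ in Filter.atTop, (3 * |C|) * (r ^ (9 / 10 : ℝ)) ^ 156 ≤ Real.exp (1 * r ^ (9 / 10 : ℝ)) :=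
    t2.eventually (BVX.psx_grow (3 * |C|) 156 one_pos)
  have e2 : ∀ᶠ r : ℝ in Filter.atTop, ‖Real.log r‖ ≤ (1 / 320) * ‖r ^ (1 / 20 : ℝ)‖ :=
    (isLittleO_log_rpow_atTop (by norm_num : (0 : ℝ) < 1 / 20)).bound (by norm_num)
  filter_upwards [e1, e2, t1.eventually (Filter.eventually_ge_atTop 100), t2.eventually (Filter.eventually_ge_atTop 1),
    Filter.eventually_ge_atTop 3] with r h1 h2 h3 h4 h5
  have hr0 : 0 < r := by linarith
  refine ⟨by linarith, ?_⟩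
  obtain ⟨u, hu⟩ : ∃ u : ℝ, u = r ^ (9 / 10 : ℝ) := ⟨_, rfl⟩
  have hur : r = u * r ^ (1 / 10 : ℝ) := by
    rw [hu, ← Real.rpow_add hr0]
    norm_num
  rw [← hu] at h1 h4 ⊢
  have hu0 : 0 < u := by linarith
  have hr100 : 100 * u ≤ r := by
    have : u * 100 ≤ u * r ^ (1 / 10 : ℝ) := mul_le_mul_of_nonneg_left h3 hu0.le
    linarith [hur]
  have hlogr : 0 < Real.log r := Real.log_pos (by linarith)
  have hexp3 : (3 : ℝ) ≤ Real.exp 2 := by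
    have := Real.add_one_le_exp (2 : ℝ)
    linarith
  have key : ∀ z : ℝ, 3 * u + 2 ≤ z → Real.exp (-z) ≤ Real.exp (-(3 * u)) / 3 := by
    intro z hz
    have e : Real.exp (-z) ≤ Real.exp (-(3 * u) - 2) := Real.exp_le_exp.2 (by linarith)
    refine e.trans ?_
    rw [Real.exp_sub]
    exact div_le_div_of_nonneg_left (Real.exp_pos _).le (by norm_num) hexp3
  have k1 : Real.exp (-(2 * r)) ≤ Real.exp (-(3 * u)) / 3 := key _ (by linarith)
  have k2 : Real.exp (-(r / 8)) ≤ Real.exp (-(3 * u)) / 3 := key _ (by linarith)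
  have k3 : Real.exp (-(r ^ (-(1 / 20) : ℝ) * r / (4 * Real.log (r ^ 20)))) * (C * (r ^ 20) ^ 7) ≤
      Real.exp (-(3 * u)) / 3 := by
    have hlog20 : Real.log (r ^ 20) = 20 * Real.log r := by
      rw [Real.log_pow]
      norm_num
    have hl2 : Real.log r ≤ 1 / 320 * r ^ (1 / 20 : ℝ) := by
      rw [Real.norm_of_nonneg hlogr.le, Real.norm_of_nonneg (Real.rpow_nonneg hr0.le _)] at h2
      exact h2
    have hprod : r ^ (-(1 / 20) : ℝ) * r = u * r ^ (1 / 20 : ℝ) := by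
      rw [hu, ← Real.rpow_add hr0]
      nth_rewrite 2 [← Real.rpow_one r]
      rw [← Real.rpow_add hr0]
      norm_num
    have hbig : 4 * u ≤ r ^ (-(1 / 20) : ℝ) * r / (4 * Real.log (r ^ 20)) := by
      rw [hprod, hlog20, le_div_iff₀ (by positivity)]
      have h6 : u * (320 * Real.log r) ≤ u * r ^ (1 / 20 : ℝ) := by
        refine mul_le_mul_of_nonneg_left ?_ hu0.le
        linarith
      linarith
    have hpow : (r ^ 20) ^ 7 ≤ u ^ 156 := by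
      have h7 : u ^ 156 = r ^ ((9 / 10 : ℝ) * (156 : ℕ)) := by
        rw [hu, Real.rpow_mul hr0.le, Real.rpow_natCast]
      rw [h7, ← pow_mul, ← Real.rpow_natCast]
      exact Real.rpow_le_rpow_of_exponent_le (by linarith) (by norm_num)
    have hC : C * (r ^ 20) ^ 7 ≤ Real.exp u / 3 := by
      rw [one_mul] at h1
      have h8 : C * (r ^ 20) ^ 7 ≤ |C| * u ^ 156 :=
        mul_le_mul (le_abs_self C) hpow (by positivity) (abs_nonneg C)
      linarith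
    calc Real.exp (-(r ^ (-(1 / 20) : ℝ) * r / (4 * Real.log (r ^ 20)))) * (C * (r ^ 20) ^ 7)
        ≤ Real.exp (-(r ^ (-(1 / 20) : ℝ) * r / (4 * Real.log (r ^ 20)))) * (Real.exp u / 3) :=
          mul_le_mul_of_nonneg_left hC (Real.exp_pos _).le
      _ ≤ Real.exp (-(4 * u)) * (Real.exp u / 3) := by
          refine mul_le_mul_of_nonneg_right ?_ (by positivity)
          exact Real.exp_le_exp.2 (by linarith)
      _ = Real.exp (-(3 * u)) / 3 := by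
          rw [← mul_div_assoc, ← Real.exp_add]
          congr 2
          ring
  linarith

theorem Trq_M {r V : ℝ} (hr : 2 ≤ r) (hV : V ≤ Real.exp (r ^ 20 * (1 / 70))) :
    (⌈V * Real.exp (r / 4)⌉₊ : ℝ) ≤ Real.exp (r ^ 20 * (1 / 60)) := by
  have h20 : 1000 * r ≤ r ^ 20 := by
    have h1 : (2 : ℝ) ^ 19 ≤ r ^ 19 := pow_le_pow_left₀ (by norm_num) hr 19
    have h2 : r ^ 20 = r ^ 19 * r := by ring
    rw [h2]
    nlinarith
  have h3 : V * Real.exp (r / 4) ≤ Real.exp (r ^ 20 * (1 / 70) + r / 4) := by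
    rw [Real.exp_add]
    exact mul_le_mul_of_nonneg_right hV (Real.exp_pos _).le
  have h4 : (⌈V * Real.exp (r / 4)⌉₊ : ℝ) ≤ (⌈Real.exp (r ^ 20 * (1 / 70) + r / 4)⌉₊ : ℝ) := by
    exact_mod_cast Nat.ceil_mono h3
  have h5 := Nat.ceil_lt_add_one (Real.exp_pos (r ^ 20 * (1 / 70) + r / 4)).le
  have h6 : (1 : ℝ) ≤ Real.exp (r ^ 20 * (1 / 70) + r / 4) := Real.one_le_exp (by positivity)
  have h7 : (2 : ℝ) ≤ Real.exp 1 := by
    have := Real.add_one_le_exp (1 : ℝ)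
    linarith
  calc (⌈V * Real.exp (r / 4)⌉₊ : ℝ) ≤ 2 * Real.exp (r ^ 20 * (1 / 70) + r / 4) := by linarith
    _ ≤ Real.exp 1 * Real.exp (r ^ 20 * (1 / 70) + r / 4) := mul_le_mul_of_nonneg_right h7 (Real.exp_pos _).le
    _ = Real.exp (1 + (r ^ 20 * (1 / 70) + r / 4)) := (Real.exp_add _ _).symm
    _ ≤ Real.exp (r ^ 20 * (1 / 60)) := Real.exp_le_exp.2 (by linarith)

theorem trq : ∃ N0 : ℕ, ∀ N : ℕ, N0 ≤ N → ∃ P : ℕ, P.Prime ∧ (P : ℝ) ≤ Real.exp (BVX.rh N) ∧ ∀ (W : ℕ) (Z : Finset ℕ),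
    Pl P W Z (Real.log N) → (W : ℝ) ≤ Real.exp (BVX.rh N / 2) → (md W Z : ℝ) ≤ (N : ℝ) ^ (1 / 70 : ℝ) →
    ∑ t ∈ cp (md W Z) ⌊(N : ℝ) ^ (2 / 5 : ℝ)⌋₊, ∑ s ∈ (md W Z).divisors,
      (1 - BVX.rh N ^ (-(1 / 20) : ℝ)) ^ tp Z s / (Nat.totient t : ℝ) * XX N P (s * t) ≤
    N * Real.exp (-(3 * BVX.rh N ^ (9 / 10 : ℝ))) := by
  obtain ⟨N1, hswx⟩ := BVX.swx
  obtain ⟨N2, hdyq⟩ := dyq
  obtain ⟨C, hC, hxsq⟩ := xsq
  obtain ⟨N3, hev⟩ := BVX.psx_ev (Trq_ev C)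
  refine ⟨max (max N1 N2) (max N3 2), fun N hN => ?_⟩
  have hN1 : N1 ≤ N := le_trans (le_trans (le_max_left _ _) (le_max_left _ _)) hN
  have hN2 : N2 ≤ N := le_trans (le_trans (le_max_right _ _) (le_max_left _ _)) hN
  have hN3 : N3 ≤ N := le_trans (le_trans (le_max_left _ _) (le_max_right _ _)) hN
  have hN4 : 2 ≤ N := le_trans (le_trans (le_max_right _ _) (le_max_right _ _)) hN
  obtain ⟨P, hP, hPle, hS⟩ := hswx N hN1
  refine ⟨P, hP, hPle, fun W Z hPl hW hV => ?_⟩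
  obtain ⟨r, hr⟩ : ∃ r, r = BVX.rh N := ⟨_, rfl⟩
  have hdy := hdyq N hN2 (md W Z) hPl.md_pos hV
  have hxs := hxsq N hN4
  obtain ⟨hr2, htot⟩ := hev N hN3
  have hsm := fun (g : ℕ → ℕ → ℝ) (hg : ∀ s t, 0 ≤ g s t) (hg1 : ∀ s t, g s t ≤ 1) =>
    smq (D := ⌊(N : ℝ) ^ (2 / 5 : ℝ)⌋₊) hPl.md_pos hS hg hg1
  have hlogN : Real.log N = r ^ 20 := by rw [hr, BVX.rh_pow]
  rw [← hr] at hW hdy hr2 htot hsm ⊢
  have hNpos : (0 : ℝ) < N := by
    have : 0 < N := by omega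
    exact_mod_cast this
  have hNexp : (N : ℝ) = Real.exp (r ^ 20) := by rw [← hlogN, Real.exp_log hNpos]
  have hr0 : 0 < r := by linarith
  obtain ⟨δ, hδ⟩ : ∃ δ : ℝ, δ = r ^ (-(1 / 20) : ℝ) := ⟨_, rfl⟩
  have hδ0 : 0 < δ := by rw [hδ]; exact Real.rpow_pos_of_pos hr0 _
  have hδ1 : δ ≤ 1 := by
    rw [hδ]
    exact Real.rpow_le_one_of_one_le_of_nonpos (by linarith) (by norm_num)
  rw [← hδ] at htot ⊢
  obtain ⟨V, hVdef⟩ : ∃ V, V = md W Z := ⟨_, rfl⟩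
  obtain ⟨D, hD⟩ : ∃ D, D = ⌊(N : ℝ) ^ (2 / 5 : ℝ)⌋₊ := ⟨_, rfl⟩
  obtain ⟨g, hg⟩ : ∃ g : ℕ → ℕ → ℝ, g = fun s t => (1 - δ) ^ tp Z s / (Nat.totient t : ℝ) := ⟨_, rfl⟩
  have hg0 : ∀ s t, 0 ≤ g s t := by
    intro s t
    rw [hg]
    exact div_nonneg (pow_nonneg (by linarith) _) (Nat.cast_nonneg _)
  have hpow1 : ∀ s, (1 - δ) ^ tp Z s ≤ 1 := fun s => pow_le_one₀ (by linarith) (by linarith)
  have hg1' : ∀ s t, g s t ≤ 1 / (Nat.totient t : ℝ) := by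
    intro s t
    rw [hg]
    exact div_le_div_of_nonneg_right (hpow1 s) (Nat.cast_nonneg _)
  have hφ1 : ∀ t : ℕ, 1 / (Nat.totient t : ℝ) ≤ 1 := by
    intro t
    rcases Nat.eq_zero_or_pos t with h | h
    · rw [h]
      norm_num
    · have : 1 ≤ Nat.totient t := Nat.totient_pos.2 h
      rw [div_le_one (by exact_mod_cast this)]
      exact_mod_cast this
  have hg1 : ∀ s t, g s t ≤ 1 := fun s t => (hg1' s t).trans (hφ1 t)
  -- the size of the modulus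
  have hV2 : (md W Z : ℝ) ≤ Real.exp (r ^ 20 * (1 / 70)) := by
    rw [Real.rpow_def_of_pos hNpos, hlogN] at hV
    exact hV
  obtain ⟨M, hM⟩ : ∃ M : ℕ, M = ⌈(md W Z : ℝ) * Real.exp (r / 4)⌉₊ := ⟨_, rfl⟩
  have hM1 : (md W Z : ℝ) * Real.exp (r / 4) ≤ M := by rw [hM]; exact Nat.le_ceil _
  have hM2 : (M : ℝ) ≤ (N : ℝ) ^ (1 / 60 : ℝ) := by
    rw [Real.rpow_def_of_pos hNpos, hlogN, hM]
    exact Trq_M hr2 hV2
  have hl1 : 1 < Real.log N := by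
    rw [hlogN]
    exact one_lt_pow₀ (by linarith) (by norm_num)
  have hB := lbq (N := N) (D := D) (δ := δ) (ρ := r) hPl hl1 hδ0.le hδ1 hr0.le hW hM1
  have hA := hsm g hg0 hg1
  rw [← hD] at hA hdy ⊢
  -- the three terms
  have hterm : ∀ t ∈ cp (md W Z) D, ∀ s ∈ (md W Z).divisors,
      (1 - δ) ^ tp Z s / (Nat.totient t : ℝ) * XX N P (s * t) ≤
        (if ((s * t : ℕ) : ℝ) ≤ Real.exp r then g s t * XX N P (s * t) else 0) +
        (if (t : ℝ) ≤ Real.exp (r / 4) ∧ Real.exp r < ((s * t : ℕ) : ℝ) then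
          (1 - δ) ^ tp Z s / (Nat.totient t : ℝ) * XX N P (s * t) else 0) +
        (if Real.exp (r / 4) < (t : ℝ) then 1 / (Nat.totient t : ℝ) * BVL.XR N (s * t) else 0) := by
    intro t _ s _
    have hX := XX_nonneg N P (s * t)
    have hX2 := XX_le N P (s * t)
    have hR := BVL.XR_nonneg N (s * t)
    have hgg : (1 - δ) ^ tp Z s / (Nat.totient t : ℝ) = g s t := by rw [hg]
    rw [hgg]
    have hgX : 0 ≤ g s t * XX N P (s * t) := mul_nonneg (hg0 s t) hX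
    have hφ0 : 0 ≤ 1 / (Nat.totient t : ℝ) := by positivity
    have hgR : g s t * XX N P (s * t) ≤ 1 / (Nat.totient t : ℝ) * BVL.XR N (s * t) :=
      mul_le_mul (hg1' s t) hX2 hX hφ0
    have hR2 : 0 ≤ 1 / (Nat.totient t : ℝ) * BVL.XR N (s * t) := mul_nonneg hφ0 hR
    by_cases c1 : ((s * t : ℕ) : ℝ) ≤ Real.exp r
    · rw [if_pos c1]
      have h2 : (0 : ℝ) ≤ (if (t : ℝ) ≤ Real.exp (r / 4) ∧ Real.exp r < ((s * t : ℕ) : ℝ) then
          g s t * XX N P (s * t) else 0) := by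
        split_ifs
        · exact hgX
        · exact le_rfl
      have h3 : (0 : ℝ) ≤ (if Real.exp (r / 4) < (t : ℝ) then 1 / (Nat.totient t : ℝ) * BVL.XR N (s * t) else 0) := by
        split_ifs
        · exact hR2
        · exact le_rfl
      linarith
    · rw [if_neg c1]
      rw [not_le] at c1
      by_cases c2 : (t : ℝ) ≤ Real.exp (r / 4)
      · rw [if_pos ⟨c2, c1⟩, if_neg (not_lt.2 c2)]
        linarith
      · rw [if_neg (fun h => c2 h.1), if_pos (not_le.1 c2)]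
        linarith
  have hE : ∑ t ∈ cp (md W Z) D, ∑ s ∈ (md W Z).divisors,
      (if Real.exp (r / 4) < (t : ℝ) then 1 / (Nat.totient t : ℝ) * BVL.XR N (s * t) else 0) ≤
      N * Real.exp (-(r / 8)) := by
    refine le_trans (le_of_eq ?_) hdy
    rw [Finset.sum_filter]
    refine Finset.sum_congr rfl fun t _ => ?_
    by_cases c : Real.exp (r / 4) < (t : ℝ)
    · simp only [if_pos c]
      rw [Finset.mul_sum]
    · simp only [if_neg c]
      rw [Finset.sum_const_zero]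
  have hB2 : Real.exp (-(δ * r / (4 * Real.log (Real.log N)))) * ∑ q ∈ Icc 1 M, BVL.XR N q ≤
      N * (Real.exp (-(δ * r / (4 * Real.log (r ^ 20)))) * (C * (r ^ 20) ^ 7)) := by
    have h1 := hxs M hM2
    rw [hlogN] at h1 ⊢
    calc Real.exp (-(δ * r / (4 * Real.log (r ^ 20)))) * ∑ q ∈ Icc 1 M, BVL.XR N q
        ≤ Real.exp (-(δ * r / (4 * Real.log (r ^ 20)))) * (C * (r ^ 20) ^ 7 * N) :=
          mul_le_mul_of_nonneg_left h1 (Real.exp_pos _).le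
      _ = _ := by ring
  calc ∑ t ∈ cp (md W Z) D, ∑ s ∈ (md W Z).divisors,
      (1 - δ) ^ tp Z s / (Nat.totient t : ℝ) * XX N P (s * t)
      ≤ ∑ t ∈ cp (md W Z) D, ∑ s ∈ (md W Z).divisors,
        ((if ((s * t : ℕ) : ℝ) ≤ Real.exp r then g s t * XX N P (s * t) else 0) +
        (if (t : ℝ) ≤ Real.exp (r / 4) ∧ Real.exp r < ((s * t : ℕ) : ℝ) then
          (1 - δ) ^ tp Z s / (Nat.totient t : ℝ) * XX N P (s * t) else 0) +
        (if Real.exp (r / 4) < (t : ℝ) then 1 / (Nat.totient t : ℝ) * BVL.XR N (s * t) else 0)) :=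
        Finset.sum_le_sum fun t ht => Finset.sum_le_sum fun s hs => hterm t ht s hs
    _ = (∑ t ∈ cp (md W Z) D, ∑ s ∈ (md W Z).divisors,
        (if ((s * t : ℕ) : ℝ) ≤ Real.exp r then g s t * XX N P (s * t) else 0)) +
        (∑ t ∈ cp (md W Z) D, ∑ s ∈ (md W Z).divisors,
        (if (t : ℝ) ≤ Real.exp (r / 4) ∧ Real.exp r < ((s * t : ℕ) : ℝ) then
          (1 - δ) ^ tp Z s / (Nat.totient t : ℝ) * XX N P (s * t) else 0)) +
        (∑ t ∈ cp (md W Z) D, ∑ s ∈ (md W Z).divisors,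
        (if Real.exp (r / 4) < (t : ℝ) then 1 / (Nat.totient t : ℝ) * BVL.XR N (s * t) else 0)) := by
        simp only [Finset.sum_add_distrib]
    _ ≤ N * Real.exp (-(2 * r)) +
        N * (Real.exp (-(δ * r / (4 * Real.log (r ^ 20)))) * (C * (r ^ 20) ^ 7)) +
        N * Real.exp (-(r / 8)) := add_le_add (add_le_add hA (hB.trans hB2)) hE
    _ = N * (Real.exp (-(2 * r)) + Real.exp (-(r / 8)) +
        Real.exp (-(δ * r / (4 * Real.log (r ^ 20)))) * (C * (r ^ 20) ^ 7)) := by ring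
    _ ≤ N * Real.exp (-(3 * r ^ (9 / 10 : ℝ))) := mul_le_mul_of_nonneg_left htot hNpos.le

end BVQ
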