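import Pool.Agent.H68.BQ.Pav
import Pool.Agent.H68.BQ.Trq
import Pool.Agent.H17.BX.Psx

/-!
# ROW Psq: the theorem for `ψ`

PROOF (model: `BVX.bvx_psi` in `Pool/Agent/H17/BX/Psx.lean`). `ρ = rh N`, `l = log N = ρ^20`, `δ = ρ^(-1/20) ∈ [0, 1]`, `D = ⌊N^(2/5)⌋₊`, `V = md W Z`, `S1 = ∑_{m ≤ D} 1/φ(m) ≤ C1 l^k` (`omega_sum` with `C = 1`), `Dn = mx N (|ψ(y) - y|) ≤ N exp(-2ρ)` (`psx_D`). For `A ⊆ Z` put
`E_A d = (∑_{r ∣ md W A d} XX N P r)/φ(md W A d) + Dn/φ(md W A d) + 2 l²`. By `BVL.orth` (`md W A d ≤ N`; `XX = XR` on the divisors of `md W A d`, because `P ∤ W`, `P ∉ A`, `(d, P) = 1`, `P` prime) and `psx_D` as in `bvx_psi`: the asymptotic formula with error `E_A d`.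
`F A = φ(md W A) ∑_{d ∈ cp V D} E_A d`. `∑_A mu F A ≤ S1 · N exp(-3 ρ^(9/10)) + S1 Dn + 2 l² V D` (`pav`, `trq`; `φ(md W A)/φ(md W A d) = 1/φ(d)`; `φ(md W A) ≤ V`; `mu_sum`), and this is `≤ f := N exp(-(5/2) ρ^(9/10))` for large `N` (`V D ≤ N^(1/70 + 2/5)`, powers of `log N = ρ^20` are small). `G A = ∑_{p ∈ Z \ A} 1/p`:
`∑_A mu G = δ ∑_{p ∈ Z} 1/p ≤ δ ∑_{n ≤ log N} 1/n ≤ δ (1 + log log N) = ρ^(-1/20) (1 + 20 log ρ) ≤ ρ^(-1/25)/3 =: g` (`mu_drop`; harmonic sum: `Finset`/`harmonic_le_one_add_log`). `mu_markov` with `f`, `g`: some `A` with `F A ≤ 3 f ≤ N exp(-2 ρ^(9/10))`, `G A ≤ ρ^(-1/25)`. Restrict the sum to `cp (P * V) D ⊆ cp V D`.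
-/

open Finset H69LB

namespace BVQ

open BVL

theorem psq_ev1 (C1 : ℝ) (hC1 : 0 ≤ C1) (k : ℕ) : ∀ᶠ r : ℝ in Filter.atTop,
    9 * (C1 * r ^ (20 * k) + 1) ≤ Real.exp (r ^ (9 / 10 : ℝ)) := by
  have ht : Filter.Tendsto (fun r : ℝ => r ^ (9 / 10 : ℝ)) Filter.atTop Filter.atTop :=
    tendsto_rpow_atTop (by norm_num)
  filter_upwards [ht.eventually (BVX.psx_grow (9 * (C1 + 1)) (40 * k) one_pos),
    Filter.eventually_ge_atTop 1] with r h1 hr
  rw [one_mul] at h1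
  have hr0 : 0 ≤ r := by linarith
  have h2 : r ≤ (r ^ (9 / 10 : ℝ)) ^ 2 := by
    rw [← Real.rpow_natCast, ← Real.rpow_mul hr0]
    calc r = r ^ (1 : ℝ) := (Real.rpow_one r).symm
      _ ≤ r ^ (9 / 10 * ((2 : ℕ) : ℝ)) := Real.rpow_le_rpow_of_exponent_le hr (by norm_num)
  have h3 : r ^ (20 * k) ≤ (r ^ (9 / 10 : ℝ)) ^ (40 * k) := by
    have e : (r ^ (9 / 10 : ℝ)) ^ (40 * k) = ((r ^ (9 / 10 : ℝ)) ^ 2) ^ (20 * k) := by
      rw [← pow_mul]
      congr 1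
      ring
    rw [e]
    exact pow_le_pow_left₀ hr0 h2 _
  have h4 : 1 ≤ r ^ (20 * k) := one_le_pow₀ hr
  calc 9 * (C1 * r ^ (20 * k) + 1) ≤ 9 * (C1 + 1) * r ^ (20 * k) := by linarith
    _ ≤ 9 * (C1 + 1) * (r ^ (9 / 10 : ℝ)) ^ (40 * k) := mul_le_mul_of_nonneg_left h3 (by positivity)
    _ ≤ _ := h1

theorem psq_ev2 : ∀ᶠ r : ℝ in Filter.atTop, r ^ (-(1 / 20) : ℝ) * (1 + 20 * Real.log r) ≤
    r ^ (-(1 / 25) : ℝ) / 3 := by
  have h1 := (isLittleO_log_rpow_atTop (by norm_num : (0 : ℝ) < 1 / 100)).bound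
    (show (0 : ℝ) < 1 / 120 by norm_num)
  have ht : Filter.Tendsto (fun r : ℝ => r ^ (1 / 100 : ℝ)) Filter.atTop Filter.atTop :=
    tendsto_rpow_atTop (by norm_num)
  filter_upwards [h1, ht.eventually (Filter.eventually_ge_atTop 6), Filter.eventually_ge_atTop 1]
    with r h2 h3 hr
  have hr0 : 0 < r := by linarith
  rw [Real.norm_of_nonneg (Real.log_nonneg hr), Real.norm_of_nonneg (by positivity)] at h2
  have h4 : r ^ (-(1 / 25) : ℝ) = r ^ (-(1 / 20) : ℝ) * r ^ (1 / 100 : ℝ) := by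
    rw [← Real.rpow_add hr0]
    norm_num
  have h5 : 0 < r ^ (-(1 / 20) : ℝ) := Real.rpow_pos_of_pos hr0 _
  rw [h4]
  calc r ^ (-(1 / 20) : ℝ) * (1 + 20 * Real.log r) ≤ r ^ (-(1 / 20) : ℝ) * (r ^ (1 / 100 : ℝ) / 3) :=
        mul_le_mul_of_nonneg_left (by linarith) h5.le
    _ = _ := by ring

theorem psq_ev3 : ∀ᶠ r : ℝ in Filter.atTop, 2 * r ^ (9 / 10 : ℝ) ≤ r := by
  have ht : Filter.Tendsto (fun r : ℝ => r ^ (1 / 10 : ℝ)) Filter.atTop Filter.atTop :=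
    tendsto_rpow_atTop (by norm_num)
  filter_upwards [ht.eventually (Filter.eventually_ge_atTop 2), Filter.eventually_ge_atTop 1] with r h3 hr
  have hr0 : 0 < r := by linarith
  have h4 : r = r ^ (1 / 10 : ℝ) * r ^ (9 / 10 : ℝ) := by
    rw [← Real.rpow_add hr0]
    norm_num
  have h5 : 0 < r ^ (9 / 10 : ℝ) := Real.rpow_pos_of_pos hr0 _
  calc 2 * r ^ (9 / 10 : ℝ) ≤ r ^ (1 / 10 : ℝ) * r ^ (9 / 10 : ℝ) := mul_le_mul_of_nonneg_right h3 h5.le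
    _ = r := h4.symm

/-- the sum of the reciprocals of the primes of `Z` -/
theorem psq_rec {P W : ℕ} {Z : Finset ℕ} {l : ℝ} (h : Pl P W Z l) (hl : 1 ≤ l) :
    ∑ p ∈ Z, 1 / (p : ℝ) ≤ 1 + Real.log l := by
  have h1 : Z ⊆ Icc 1 ⌊l⌋₊ := by
    intro p hp
    rw [Finset.mem_Icc]
    exact ⟨(h.prime p hp).one_le, Nat.le_floor (h.le p hp)⟩
  have h2 : ∑ p ∈ Z, 1 / (p : ℝ) ≤ ∑ p ∈ Icc 1 ⌊l⌋₊, 1 / (p : ℝ) :=
    Finset.sum_le_sum_of_subset_of_nonneg h1 (fun p _ _ => by positivity)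
  have h3 := harmonic_floor_le_one_add_log l hl
  refine h2.trans (le_trans (le_of_eq ?_) h3)
  rw [harmonic_eq_sum_Icc]
  push_cast
  refine Finset.sum_congr rfl fun p _ => ?_
  rw [one_div]

theorem psq_ndvd {P W : ℕ} {Z A : Finset ℕ} {l : ℝ} (h : Pl P W Z l) (hP : P.Prime) (hA : A ⊆ Z) :
    ¬ P ∣ md W A := by
  unfold md
  intro h1
  rcases hP.dvd_mul.mp h1 with h2 | h2
  · exact h.PW h2
  · obtain ⟨p, hp, h3⟩ := (Nat.Prime.prime hP).exists_mem_finset_dvd h2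
    have hp' := h.prime p (hA hp)
    exact h.ne p (hA hp) ((Nat.prime_dvd_prime_iff_eq hP hp').mp h3).symm

theorem psq : ∃ N0 : ℕ, ∀ N : ℕ, N0 ≤ N → ∃ P : ℕ, P.Prime ∧ (P : ℝ) ≤ Real.exp (BVX.rh N) ∧ ∀ (W : ℕ) (Z : Finset ℕ),
    Pl P W Z (Real.log N) → (W : ℝ) ≤ Real.exp (BVX.rh N / 2) → (md W Z : ℝ) ≤ (N : ℝ) ^ (1 / 70 : ℝ) →
    ∃ A ⊆ Z, ∑ p ∈ Z \ A, 1 / (p : ℝ) ≤ BVX.rh N ^ (-(1 / 25) : ℝ) ∧ ∃ E : ℕ → ℝ, (∀ d, 0 ≤ E d) ∧
    (∀ d ∈ cp (P * md W Z) ⌊(N : ℝ) ^ (2 / 5 : ℝ)⌋₊, ∀ a : ℕ, Nat.Coprime a (md W A * d) → ∀ y : ℕ, y ≤ N →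
      |∑ n ∈ (Icc 1 y).filter (fun n => n ≡ a [MOD md W A * d]), ArithmeticFunction.vonMangoldt n -
        y / (Nat.totient (md W A * d) : ℝ)| ≤ E d) ∧
    (Nat.totient (md W A) : ℝ) * ∑ d ∈ cp (P * md W Z) ⌊(N : ℝ) ^ (2 / 5 : ℝ)⌋₊, E d ≤
      N * Real.exp (-(2 * BVX.rh N ^ (9 / 10 : ℝ))) := by
  obtain ⟨C1, hC1, k, hS⟩ := omega_sum (zero_le_one' ℝ)
  obtain ⟨N1, hT⟩ := trq
  obtain ⟨N2, hD⟩ := BVX.psx_D
  obtain ⟨N3, hE⟩ := BVX.psx_ev ((psq_ev1 C1 hC1 k).and (psq_ev2.and (psq_ev3.and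
    ((BVX.psx_grow (3 * C1) (20 * k) one_pos).and ((BVX.psx_grow2 6 40 2).and
    (Filter.eventually_ge_atTop 1))))))
  refine ⟨max (max N1 N2) (max N3 3), fun N hN => ?_⟩
  obtain ⟨P, hP, hPs, hT1⟩ := hT N (by omega)
  refine ⟨P, hP, hPs, fun W Z hPl hW hmd => ?_⟩
  have hT2 := hT1 W Z hPl hW hmd
  have hD1 := hD N (by omega)
  obtain ⟨e1, e2, e3, e4, e5, hρ1⟩ := hE N (by omega)
  have hN3 : 3 ≤ N := by omega
  have hNr : (3 : ℝ) ≤ N := by exact_mod_cast hN3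
  have hN0 : (0 : ℝ) < N := by linarith
  have hsq : Real.exp (BVX.rh N ^ 20 / 2) = Real.sqrt N := by
    rw [BVX.rh_pow, Real.exp_half, Real.exp_log hN0]
  have hlpow := BVX.rh_pow N
  rw [hsq] at e5
  obtain ⟨ρ, hρ⟩ : ∃ ρ, ρ = BVX.rh N := ⟨_, rfl⟩
  obtain ⟨l, hl⟩ : ∃ l, l = Real.log N := ⟨_, rfl⟩
  rw [← hρ] at hT2 hD1 e1 e2 e3 e4 e5 hρ1 hlpow ⊢
  rw [← hl] at hPl hlpow
  obtain ⟨V, hV⟩ : ∃ V, V = md W Z := ⟨_, rfl⟩
  obtain ⟨D, hDd⟩ : ∃ D, D = ⌊(N : ℝ) ^ (2 / 5 : ℝ)⌋₊ := ⟨_, rfl⟩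
  obtain ⟨δ, hδ⟩ : ∃ δ, δ = ρ ^ (-(1 / 20) : ℝ) := ⟨_, rfl⟩
  obtain ⟨x, hx⟩ : ∃ x, x = ρ ^ (9 / 10 : ℝ) := ⟨_, rfl⟩
  rw [← hV, ← hDd, ← hδ, ← hx] at hT2
  rw [← hV] at hmd
  rw [← hV, ← hDd, ← hx]
  rw [← hδ] at e2
  rw [← hx] at e1 e3
  have hl1 : 1 ≤ l := by
    rw [← hlpow]
    exact one_le_pow₀ hρ1
  have hl0 : 0 ≤ l := by linarith
  have hρ0 : 0 < ρ := by linarith
  have hδ0 : 0 < δ := by rw [hδ]; exact Real.rpow_pos_of_pos hρ0 _
  have hδ1 : δ ≤ 1 := by rw [hδ]; exact Real.rpow_le_one_of_one_le_of_nonpos hρ1 (by norm_num)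
  have hlogl : Real.log l = 20 * Real.log ρ := by
    rw [← hlpow, Real.log_pow]
    norm_num
  -- sizes
  have hDle : (D : ℝ) ≤ (N : ℝ) ^ (2 / 5 : ℝ) := by
    rw [hDd]
    exact Nat.floor_le (by positivity)
  have hVD : (V : ℝ) * D ≤ Real.sqrt N := by
    calc (V : ℝ) * D ≤ (N : ℝ) ^ (1 / 70 : ℝ) * (N : ℝ) ^ (2 / 5 : ℝ) :=
          mul_le_mul hmd hDle (Nat.cast_nonneg _) (by positivity)
      _ = (N : ℝ) ^ (1 / 70 + 2 / 5 : ℝ) := (Real.rpow_add hN0 _ _).symm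
      _ ≤ (N : ℝ) ^ (1 / 2 : ℝ) := Real.rpow_le_rpow_of_exponent_le (by linarith) (by norm_num)
      _ = Real.sqrt N := (Real.sqrt_eq_rpow _).symm
  have hsN : Real.sqrt N * Real.sqrt N = N := Real.mul_self_sqrt hN0.le
  have hs1 : 1 ≤ Real.sqrt N := by
    rw [Real.le_sqrt (by norm_num) hN0.le]
    linarith
  have hsleN : Real.sqrt N ≤ N := by nlinarith
  have hDN : D ≤ N := by
    have h1 : (D : ℝ) ≤ N := by
      refine hDle.trans ?_
      calc (N : ℝ) ^ (2 / 5 : ℝ) ≤ (N : ℝ) ^ (1 : ℝ) :=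
            Real.rpow_le_rpow_of_exponent_le (by linarith) (by norm_num)
        _ = N := Real.rpow_one _
    exact_mod_cast h1
  have hV1 : 1 ≤ V := by rw [hV]; exact hPl.md_pos
  -- the sum S1
  have hS1 : ∑ m ∈ Icc 1 D, 1 / (Nat.totient m : ℝ) ≤ C1 * l ^ k := by
    have h1 := hS N (by omega)
    rw [← hl] at h1
    refine le_trans ?_ h1
    calc ∑ m ∈ Icc 1 D, 1 / (Nat.totient m : ℝ) ≤ ∑ m ∈ Icc 1 N, 1 / (Nat.totient m : ℝ) :=
          Finset.sum_le_sum_of_subset_of_nonneg (Finset.Icc_subset_Icc_right hDN)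
            (fun m _ _ => by positivity)
      _ = _ := by simp
  have hS0 : 0 ≤ ∑ m ∈ Icc 1 D, 1 / (Nat.totient m : ℝ) :=
    Finset.sum_nonneg fun m _ => by positivity
  obtain ⟨S1, hS1d⟩ : ∃ S1, S1 = ∑ m ∈ Icc 1 D, 1 / (Nat.totient m : ℝ) := ⟨_, rfl⟩
  rw [← hS1d] at hS1 hS0
  -- the average
  have hp := pav (N := N) (D := D) hPl hδ1
  rw [← hS1d, ← hV] at hp
  have hNe : 0 ≤ (N : ℝ) * Real.exp (-(3 * x)) := by positivity
  have hp2 : ∑ A ∈ Z.powerset, mu δ Z A * ((Nat.totient (md W A) : ℝ) *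
      ∑ d ∈ cp V D, (∑ r ∈ (md W A * d).divisors, XX N P r) / (Nat.totient (md W A * d) : ℝ)) ≤
      (C1 * l ^ k + 1) * (N * Real.exp (-(3 * x))) := by
    refine hp.trans ?_
    calc _ ≤ S1 * (N * Real.exp (-(3 * x))) := mul_le_mul_of_nonneg_left hT2 hS0
      _ ≤ _ := mul_le_mul_of_nonneg_right (by linarith) hNe
  have hG2 : ∑ A ∈ Z.powerset, mu δ Z A * ∑ p ∈ Z \ A, 1 / (p : ℝ) ≤ ρ ^ (-(1 / 25) : ℝ) / 3 := by
    rw [mu_drop]
    refine le_trans ?_ e2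
    apply mul_le_mul_of_nonneg_left _ hδ0.le
    rw [← hlogl]
    exact psq_rec hPl hl1
  have hXX0 : ∀ (A : Finset ℕ) (d : ℕ), 0 ≤ (∑ r ∈ (md W A * d).divisors, XX N P r) /
      (Nat.totient (md W A * d) : ℝ) := fun A d =>
    div_nonneg (Finset.sum_nonneg fun r _ => XX_nonneg N P r) (Nat.cast_nonneg _)
  obtain ⟨A, hA, hFA, hGA⟩ := mu_markov hδ0.le hδ1 Z
    (F := fun A => (Nat.totient (md W A) : ℝ) *
      ∑ d ∈ cp V D, (∑ r ∈ (md W A * d).divisors, XX N P r) / (Nat.totient (md W A * d) : ℝ))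
    (G := fun A => ∑ p ∈ Z \ A, 1 / (p : ℝ))
    (fun A _ => mul_nonneg (Nat.cast_nonneg _) (Finset.sum_nonneg fun d _ => hXX0 A d))
    (fun A _ => Finset.sum_nonneg fun p _ => by positivity)
    (f := (C1 * l ^ k + 1) * (N * Real.exp (-(3 * x)))) (g := ρ ^ (-(1 / 25) : ℝ) / 3)
    (by positivity) (by positivity) hp2 hG2
  have hFA' : (Nat.totient (md W A) : ℝ) *
      ∑ d ∈ cp V D, (∑ r ∈ (md W A * d).divisors, XX N P r) / (Nat.totient (md W A * d) : ℝ) ≤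
      3 * ((C1 * l ^ k + 1) * (N * Real.exp (-(3 * x)))) := hFA
  have hGA' : ∑ p ∈ Z \ A, 1 / (p : ℝ) ≤ 3 * (ρ ^ (-(1 / 25) : ℝ) / 3) := hGA
  refine ⟨A, hA, by linarith, ?_⟩
  obtain ⟨Dn, hDn⟩ : ∃ Dn : ℝ, Dn = mx N (fun y => |∑ n ∈ Icc 1 y, ArithmeticFunction.vonMangoldt n - (y : ℝ)|) :=
    ⟨_, rfl⟩
  rw [← hDn] at hD1
  have hDn0 : 0 ≤ Dn := by rw [hDn]; exact mx_nonneg (fun y => abs_nonneg _)
  have hAV : md W A ∣ V := by rw [hV]; exact md_dvd hA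
  have hAVle : md W A ≤ V := Nat.le_of_dvd (by omega) hAV
  have hA1 : 1 ≤ md W A := (hPl.mono hA).md_pos
  have hsub : cp (P * V) D ⊆ cp V D := by
    intro d hd
    rw [mem_cp] at hd ⊢
    exact ⟨hd.1, Nat.Coprime.coprime_mul_left_right hd.2⟩
  have hPd : ∀ d ∈ cp (P * V) D, Nat.Coprime d P := by
    intro d hd
    rw [mem_cp] at hd
    exact Nat.Coprime.coprime_mul_right_right hd.2
  refine ⟨fun d => (∑ r ∈ (md W A * d).divisors, XX N P r) / (Nat.totient (md W A * d) : ℝ) +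
    Dn / (Nat.totient (md W A * d) : ℝ) + 2 * l ^ 2, ?_, ?_, ?_⟩
  · intro d
    have h1 := hXX0 A d
    positivity
  · intro d hd a ha y hy
    have hd1 := hPd d hd
    have hd2 := mem_cp.mp (hsub hd)
    obtain ⟨q, hq⟩ : ∃ q, q = md W A * d := ⟨_, rfl⟩
    rw [← hq] at ha
    have hq1 : 1 ≤ q := by rw [hq]; exact Nat.mul_pos hA1 hd2.1.1
    have hqN : q ≤ N := by
      have h1 : (q : ℝ) ≤ N := by
        rw [hq]
        push_cast
        have h2 : (md W A : ℝ) ≤ V := by exact_mod_cast hAVle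
        have h3 : (d : ℝ) ≤ D := by exact_mod_cast hd2.1.2
        calc (md W A : ℝ) * d ≤ V * D := mul_le_mul h2 h3 (Nat.cast_nonneg _) (Nat.cast_nonneg _)
          _ ≤ Real.sqrt N := hVD
          _ ≤ N := hsleN
      exact_mod_cast h1
    have hPq : ¬ P ∣ q := by
      rw [hq]
      intro h1
      rcases hP.dvd_mul.mp h1 with h2 | h2
      · exact psq_ndvd hPl hP hA h2
      · have h3 : P ∣ Nat.gcd d P := Nat.dvd_gcd h2 dvd_rfl
        rw [hd1] at h3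
        exact hP.one_lt.ne' (Nat.dvd_one.mp h3)
    have h1 := orth hq1 ha hy hqN (by omega)
    rw [← hl] at h1
    have hXX : ∑ r ∈ q.divisors, XR N r = ∑ r ∈ q.divisors, XX N P r := by
      refine Finset.sum_congr rfl fun r hr => ?_
      unfold XX
      rw [if_neg]
      intro h
      exact hPq (h.trans (Nat.dvd_of_mem_divisors hr))
    rw [hXX] at h1
    have hphi : (0 : ℝ) < (Nat.totient q : ℝ) := by exact_mod_cast Nat.totient_pos.mpr hq1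
    have h2 : |(∑ n ∈ Icc 1 y, ArithmeticFunction.vonMangoldt n) / (Nat.totient q : ℝ) - y / (Nat.totient q : ℝ)| ≤
        Dn / (Nat.totient q : ℝ) := by
      rw [← sub_div, abs_div, abs_of_pos hphi]
      apply div_le_div_of_nonneg_right _ hphi.le
      rw [hDn]
      exact le_mx (fun y => |∑ n ∈ Icc 1 y, ArithmeticFunction.vonMangoldt n - (y : ℝ)|) hy
    have h3 := abs_sub_le (∑ n ∈ (Icc 1 y).filter (fun n => n ≡ a [MOD q]), ArithmeticFunction.vonMangoldt n)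
      ((∑ n ∈ Icc 1 y, ArithmeticFunction.vonMangoldt n) / (Nat.totient q : ℝ)) (y / (Nat.totient q : ℝ))
    show |∑ n ∈ (Icc 1 y).filter (fun n => n ≡ a [MOD md W A * d]), ArithmeticFunction.vonMangoldt n -
        y / (Nat.totient (md W A * d) : ℝ)| ≤ (∑ r ∈ (md W A * d).divisors, XX N P r) /
          (Nat.totient (md W A * d) : ℝ) + Dn / (Nat.totient (md W A * d) : ℝ) + 2 * l ^ 2
    rw [← hq]
    linarith
  · -- the total
    have hphiA0 : (0 : ℝ) ≤ (Nat.totient (md W A) : ℝ) := Nat.cast_nonneg _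
    have t1 : (Nat.totient (md W A) : ℝ) * ∑ d ∈ cp (P * V) D,
        (∑ r ∈ (md W A * d).divisors, XX N P r) / (Nat.totient (md W A * d) : ℝ) ≤
        3 * ((C1 * l ^ k + 1) * (N * Real.exp (-(3 * x)))) := by
      refine le_trans (mul_le_mul_of_nonneg_left ?_ hphiA0) hFA'
      exact Finset.sum_le_sum_of_subset_of_nonneg hsub (fun d _ _ => hXX0 A d)
    have t2 : (Nat.totient (md W A) : ℝ) * ∑ d ∈ cp (P * V) D, Dn / (Nat.totient (md W A * d) : ℝ) ≤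
        (C1 * l ^ k) * (N * Real.exp (-(2 * ρ))) := by
      rw [Finset.mul_sum]
      have h1 : ∀ d ∈ cp (P * V) D, (Nat.totient (md W A) : ℝ) * (Dn / (Nat.totient (md W A * d) : ℝ)) =
          1 / (Nat.totient d : ℝ) * Dn := by
        intro d hd
        have hd2 := mem_cp.mp (hsub hd)
        have hco : Nat.Coprime (md W A) d := (Nat.Coprime.coprime_dvd_right hAV hd2.2).symm
        rw [Nat.totient_mul hco]
        have hA2 : (Nat.totient (md W A) : ℝ) ≠ 0 := by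
          exact_mod_cast (Nat.totient_pos.mpr hA1).ne'
        have hd3 : (Nat.totient d : ℝ) ≠ 0 := by
          exact_mod_cast (Nat.totient_pos.mpr hd2.1.1).ne'
        push_cast
        field_simp
      rw [Finset.sum_congr rfl h1, ← Finset.sum_mul]
      refine mul_le_mul (le_trans ?_ hS1) hD1 hDn0 (by positivity)
      rw [hS1d]
      apply Finset.sum_le_sum_of_subset_of_nonneg _ (fun m _ _ => by positivity)
      intro d hd
      have hd2 := mem_cp.mp (hsub hd)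
      rw [Finset.mem_Icc]
      exact hd2.1
    have t3 : (Nat.totient (md W A) : ℝ) * ∑ _d ∈ cp (P * V) D, (2 * l ^ 2) ≤ Real.sqrt N * (2 * l ^ 2) := by
      rw [Finset.sum_const, nsmul_eq_mul, ← mul_assoc]
      apply mul_le_mul_of_nonneg_right _ (by positivity)
      refine le_trans ?_ hVD
      have h2 : (Nat.totient (md W A) : ℝ) ≤ V := by
        exact_mod_cast (Nat.totient_le _).trans hAVle
      have h3 : ((cp (P * V) D).card : ℝ) ≤ D := by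
        have h4 : (cp (P * V) D).card ≤ (Icc 1 D).card := by
          apply Finset.card_le_card
          unfold cp
          exact Finset.filter_subset _ _
        rw [Nat.card_Icc, Nat.add_sub_cancel] at h4
        exact_mod_cast h4
      exact mul_le_mul h2 h3 (Nat.cast_nonneg _) (Nat.cast_nonneg _)
    have hsplit : (Nat.totient (md W A) : ℝ) * ∑ d ∈ cp (P * V) D,
        ((∑ r ∈ (md W A * d).divisors, XX N P r) / (Nat.totient (md W A * d) : ℝ) +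
          Dn / (Nat.totient (md W A * d) : ℝ) + 2 * l ^ 2) =
        (Nat.totient (md W A) : ℝ) * ∑ d ∈ cp (P * V) D,
          (∑ r ∈ (md W A * d).divisors, XX N P r) / (Nat.totient (md W A * d) : ℝ) +
        (Nat.totient (md W A) : ℝ) * ∑ d ∈ cp (P * V) D, Dn / (Nat.totient (md W A * d) : ℝ) +
        (Nat.totient (md W A) : ℝ) * ∑ _d ∈ cp (P * V) D, (2 * l ^ 2) := by
      rw [Finset.sum_add_distrib, Finset.sum_add_distrib]
      ring
    show (Nat.totient (md W A) : ℝ) * ∑ d ∈ cp (P * V) D,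
        ((∑ r ∈ (md W A * d).divisors, XX N P r) / (Nat.totient (md W A * d) : ℝ) +
          Dn / (Nat.totient (md W A * d) : ℝ) + 2 * l ^ 2) ≤ N * Real.exp (-(2 * x))
    rw [hsplit]
    have hlk : l ^ k = ρ ^ (20 * k) := by rw [← hlpow, ← pow_mul]
    have hl2 : l ^ 2 = ρ ^ 40 := by rw [← hlpow, ← pow_mul]
    have hEx : 0 < Real.exp (-(2 * x)) := Real.exp_pos _
    -- first
    have s1 : 3 * ((C1 * l ^ k + 1) * (N * Real.exp (-(3 * x)))) ≤ N * Real.exp (-(2 * x)) / 3 := by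
      rw [hlk]
      have h1 : Real.exp x * Real.exp (-(3 * x)) = Real.exp (-(2 * x)) := by
        rw [← Real.exp_add]; congr 1; ring
      have h2 := mul_le_mul_of_nonneg_right e1 hNe
      have h3 : Real.exp x * (N * Real.exp (-(3 * x))) = N * Real.exp (-(2 * x)) := by
        rw [← h1]; ring
      rw [h3] at h2
      linarith
    -- second
    have s2 : (C1 * l ^ k) * (N * Real.exp (-(2 * ρ))) ≤ N * Real.exp (-(2 * x)) / 3 := by
      rw [hlk]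
      have h1 : Real.exp (1 * ρ) * Real.exp (-(2 * ρ)) = Real.exp (-ρ) := by
        rw [← Real.exp_add]; congr 1; ring
      have h2 := mul_le_mul_of_nonneg_right e4 (by positivity : 0 ≤ (N : ℝ) * Real.exp (-(2 * ρ)))
      have h3 : Real.exp (1 * ρ) * (N * Real.exp (-(2 * ρ))) = N * Real.exp (-ρ) := by
        rw [← h1]; ring
      rw [h3] at h2
      have h4 : Real.exp (-ρ) ≤ Real.exp (-(2 * x)) := Real.exp_le_exp.mpr (by linarith)
      have h5 := mul_le_mul_of_nonneg_left h4 hN0.le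
      linarith
    -- third
    have s3 : Real.sqrt N * (2 * l ^ 2) ≤ N * Real.exp (-(2 * x)) / 3 := by
      rw [hl2]
      have hxρ : x ≤ ρ := by
        have hx0 : 0 < x := by rw [hx]; exact Real.rpow_pos_of_pos hρ0 _
        linarith
      have h1 : Real.exp (2 * ρ) * Real.exp (-(2 * ρ)) = 1 := by
        rw [← Real.exp_add, add_neg_cancel, Real.exp_zero]
      have h2 := mul_le_mul_of_nonneg_right e5 (Real.exp_pos (-(2 * ρ))).le
      rw [mul_assoc, h1, mul_one] at h2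
      have h3 := mul_le_mul_of_nonneg_left h2 (Real.sqrt_nonneg (N : ℝ))
      rw [← mul_assoc (Real.sqrt (N : ℝ)) (Real.sqrt (N : ℝ)), hsN] at h3
      have h4 : Real.exp (-(2 * ρ)) ≤ Real.exp (-(2 * x)) := Real.exp_le_exp.mpr (by linarith)
      have h5 := mul_le_mul_of_nonneg_left h4 hN0.le
      linarith
    linarith

end BVQ
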